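import Pool.Agent.TH143.EL.Main3

/-!
Two elliptic functions with the same periods are algebraically dependent.
-/

set_option autoImplicit false

namespace Pool.Agent.TH143.EL

open Filter Topology Set MvPolynomial

/-- the elliptic functions with the periods `ω₁`, `ω₂` -/
def Ell (ω₁ ω₂ : ℂ) : Subalgebra ℂ (ℂ → ℂ) where
  carrier := {b | Meromorphic b ∧ (∀ z, b (z + ω₁) = b z) ∧ ∀ z, b (z + ω₂) = b z}
  mul_mem' := by
    rintro a b ⟨h1, h2, h3⟩ ⟨h4, h5, h6⟩
    exact ⟨h1.mul h4, fun z => by rw [Pi.mul_apply, Pi.mul_apply, h2, h5],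
      fun z => by rw [Pi.mul_apply, Pi.mul_apply, h3, h6]⟩
  add_mem' := by
    rintro a b ⟨h1, h2, h3⟩ ⟨h4, h5, h6⟩
    exact ⟨h1.add h4, fun z => by rw [Pi.add_apply, Pi.add_apply, h2, h5],
      fun z => by rw [Pi.add_apply, Pi.add_apply, h3, h6]⟩
  algebraMap_mem' := fun c => ⟨Meromorphic.const c, fun _ => rfl, fun _ => rfl⟩

theorem mem_Ell {ω₁ ω₂ : ℂ} {b : ℂ → ℂ} : b ∈ Ell ω₁ ω₂ ↔
    Meromorphic b ∧ (∀ z, b (z + ω₁) = b z) ∧ ∀ z, b (z + ω₂) = b z := Iff.rfl

/-- every point is close to `0` up to periods -/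
theorem exists_shift {ω₁ ω₂ : ℂ} (hind : LinearIndependent ℝ ![ω₁, ω₂]) (z : ℂ) :
    ∃ m n : ℤ, ‖z + (m * ω₁ + n * ω₂)‖ ≤ ‖ω₁‖ + ‖ω₂‖ := by
  let L : PeriodPair := ⟨ω₁, ω₂, hind⟩
  have h1 := L.basis.sum_repr z
  rw [Fin.sum_univ_two, L.basis_zero, L.basis_one] at h1
  set x := L.basis.repr z 0
  set y := L.basis.repr z 1
  refine ⟨-⌊x⌋, -⌊y⌋, ?_⟩
  have h2 : z + (((-⌊x⌋ : ℤ) : ℂ) * ω₁ + ((-⌊y⌋ : ℤ) : ℂ) * ω₂) =
      ((Int.fract x : ℝ) : ℂ) * ω₁ + ((Int.fract y : ℝ) : ℂ) * ω₂ := by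
    rw [← h1, Complex.real_smul, Complex.real_smul]
    change (x : ℂ) * ω₁ + (y : ℂ) * ω₂ + _ = _
    have h3 : ((Int.fract x : ℝ) : ℂ) = x - ⌊x⌋ := by
      rw [Int.fract]; push_cast; ring
    have h4 : ((Int.fract y : ℝ) : ℂ) = y - ⌊y⌋ := by
      rw [Int.fract]; push_cast; ring
    rw [h3, h4]
    push_cast
    ring
  rw [h2]
  refine (norm_add_le _ _).trans (add_le_add ?_ ?_)
  · rw [norm_mul, Complex.norm_real, Real.norm_eq_abs, abs_of_nonneg (Int.fract_nonneg x)]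
    exact mul_le_of_le_one_left (norm_nonneg _) (Int.fract_lt_one x).le
  · rw [norm_mul, Complex.norm_real, Real.norm_eq_abs, abs_of_nonneg (Int.fract_nonneg y)]
    exact mul_le_of_le_one_left (norm_nonneg _) (Int.fract_lt_one y).le

theorem per_int {α : Type} {b : ℂ → α} {ω₁ ω₂ : ℂ} (h1 : ∀ z, b (z + ω₁) = b z)
    (h2 : ∀ z, b (z + ω₂) = b z) (m n : ℤ) (z : ℂ) : b (z + (m * ω₁ + n * ω₂)) = b z := by
  have h3 : Function.Periodic b ω₁ := h1
  have h4 : Function.Periodic b ω₂ := h2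
  rw [← add_assoc, h4.int_mul n, h3.int_mul m]

/-- Liouville's theorem for elliptic functions -/
theorem ell_liouville {ω₁ ω₂ : ℂ} (hind : LinearIndependent ℝ ![ω₁, ω₂]) {g : ℂ → ℂ}
    (h1 : ∀ z, g (z + ω₁) = g z) (h2 : ∀ z, g (z + ω₂) = g z)
    (han : ∀ z, ‖z‖ ≤ ‖ω₁‖ + ‖ω₂‖ → AnalyticAt ℂ g z) (z w : ℂ) : g z = g w := by
  have han' : ∀ z, AnalyticAt ℂ g z := by
    intro z
    obtain ⟨m, n, hmn⟩ := exists_shift hind z
    have h3 := han _ hmn
    have h4 : g = fun z => g (z + (m * ω₁ + n * ω₂)) := funext fun z => (per_int h1 h2 m n z).symm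
    rw [h4]
    exact h3.fun_comp (f := fun z => z + (m * ω₁ + n * ω₂)) (analyticAt_id.add analyticAt_const)
  have hd : Differentiable ℂ g := fun z => (han' z).differentiableAt
  obtain ⟨C, hC⟩ := (isCompact_closedBall (0 : ℂ) (‖ω₁‖ + ‖ω₂‖)).exists_bound_of_continuousOn
    hd.continuous.continuousOn
  apply hd.apply_eq_apply_of_bounded
  rw [isBounded_iff_forall_norm_le]
  refine ⟨C, ?_⟩
  rintro _ ⟨z, rfl⟩
  obtain ⟨m, n, hmn⟩ := exists_shift hind z
  rw [← per_int h1 h2 m n z]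
  exact hC _ (by rwa [mem_closedBall_zero_iff])

theorem exists_coeff {ι κ : Type} [Fintype ι] [Fintype κ] (hc : Fintype.card κ < Fintype.card ι)
    (M : κ → ι → ℂ) : ∃ c : ι → ℂ, c ≠ 0 ∧ ∀ k, ∑ i, M k i * c i = 0 := by
  classical
  have h1 : LinearMap.ker (Matrix.mulVecLin (Matrix.of M)) ≠ ⊥ :=
    LinearMap.ker_ne_bot_of_finrank_lt (by
      rw [Module.finrank_fintype_fun_eq_card, Module.finrank_fintype_fun_eq_card]
      exact hc)
  obtain ⟨c, hc, hc0⟩ := (Submodule.ne_bot_iff _).1 h1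
  refine ⟨c, hc0, fun k => ?_⟩
  have h2 := congrFun (LinearMap.mem_ker.1 hc) k
  exact h2

theorem vanish_order {ι : Type} [Fintype ι] {H : ι → ℂ → ℂ} {p : ℂ}
    (hH : ∀ i, AnalyticAt ℂ (H i) p) {K : ℕ} {c : ι → ℂ}
    (h : ∀ k < K, ∑ i, iteratedDeriv k (H i) p * c i = 0) :
    ∃ u : ℂ → ℂ, AnalyticAt ℂ u p ∧ ∀ᶠ z in 𝓝 p, ∑ i, c i * H i z = (z - p) ^ K * u z := by
  have han : AnalyticAt ℂ (fun z => ∑ i, c i * H i z) p :=
    Finset.analyticAt_fun_sum _ fun i _ => analyticAt_const.mul (hH i)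
  have h1 : (K : ℕ∞) ≤ analyticOrderAt (fun z => ∑ i, c i * H i z) p := by
    rw [natCast_le_analyticOrderAt_iff_iteratedDeriv_eq_zero han]
    intro k hk
    rw [iteratedDeriv_fun_sum (f := fun i z => c i * H i z) (fun i _ =>
      (analyticAt_const.mul (hH i)).contDiffAt)]
    rw [← h k hk]
    refine Finset.sum_congr rfl fun i _ => ?_
    rw [iteratedDeriv_const_mul_field, mul_comm]
  obtain ⟨u, hu, hu'⟩ := (natCast_le_analyticOrderAt han).1 h1
  exact ⟨u, hu, by simpa only [smul_eq_mul] using hu'⟩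

theorem nf_an {G u : ℂ → ℂ} (hG : Meromorphic G) {z : ℂ} (hu : AnalyticAt ℂ u z)
    (h : G =ᶠ[𝓝[≠] z] u) : AnalyticAt ℂ (toMeromorphicNFOn G univ) z := by
  have h1 : MeromorphicNFAt (toMeromorphicNFOn G univ) z :=
    meromorphicNFOn_toMeromorphicNFOn G univ (mem_univ z)
  have h2 : toMeromorphicNFOn G univ =ᶠ[𝓝[≠] z] u := by
    filter_upwards [codis_ev (nf_codis hG) z, h] with y h3 h4
    rw [← h3, h4]
  have h3 := (h1.eventuallyEq_nhdsNE_iff_eventuallyEq_nhds hu.meromorphicNFAt).1 h2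
  exact hu.congr h3.symm

theorem nf_per {G : ℂ → ℂ} (hG : Meromorphic G) {a : ℂ} (h : ∀ z, G (z + a) = G z) (z : ℂ) :
    toMeromorphicNFOn G univ (z + a) = toMeromorphicNFOn G univ z := by
  have h1 : MeromorphicNFAt (fun z => toMeromorphicNFOn G univ (z + a)) z :=
    (meromorphicNFOn_toMeromorphicNFOn G univ (mem_univ (z + a))).comp_analyticAt
      (g := fun z => z + a) (analyticAt_id.add analyticAt_const)
  have h2 : (fun z => toMeromorphicNFOn G univ (z + a)) =ᶠ[𝓝[≠] z] toMeromorphicNFOn G univ := by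
    filter_upwards [codis_ev (codis_shift a (nf_codis hG)) z, codis_ev (nf_codis hG) z]
      with y h3 h4
    rw [← h3, ← h4, h]
  exact ((h1.eventuallyEq_nhdsNE_iff_eventuallyEq_nhds
    (meromorphicNFOn_toMeromorphicNFOn G univ (mem_univ z))).1 h2).self_of_nhds

/-- two elliptic functions are algebraically dependent -/
theorem ell_dep {ω₁ ω₂ : ℂ} (hind : LinearIndependent ℝ ![ω₁, ω₂]) {a b : ℂ → ℂ}
    (ha : a ∈ Ell ω₁ ω₂) (hb : b ∈ Ell ω₁ ω₂) : ∃ P : MvPolynomial (Fin 2) ℂ, P ≠ 0 ∧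
      ∀ᶠ z in codiscrete ℂ, eval ![a z, b z] P = 0 := by
  classical
  set r := ‖ω₁‖ + ‖ω₂‖ with hr
  have hU : {z | AnalyticAt ℂ a z ∧ AnalyticAt ℂ b z} ∈ codiscrete ℂ := by
    filter_upwards [mero_an ha.1, mero_an hb.1] with z h1 h2
    exact ⟨h1, h2⟩
  set U := {z | AnalyticAt ℂ a z ∧ AnalyticAt ℂ b z} with hUdef
  have hSfin : (Uᶜ ∩ Metric.closedBall 0 r).Finite := by
    have h1 : IsCompact (Uᶜ ∩ Metric.closedBall (0 : ℂ) r) :=
      (isCompact_closedBall (0 : ℂ) r).inter_left (codis_open hU).isClosed_compl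
    exact h1.finite ((mem_codiscrete'.1 hU).2.mono inter_subset_left)
  obtain ⟨z0, hz0⟩ := codis_ne hU
  choose na hna using fun p => ha.1 p
  choose nb hnb using fun p => hb.1 p
  set S := hSfin.toFinset with hS
  let m : ℕ := ∑ p ∈ S, (na p + nb p)
  have hmS : ∀ p ∈ S, na p + nb p ≤ m := fun p hp =>
    Finset.single_le_sum (f := fun p => na p + nb p) (fun _ _ => Nat.zero_le _) hp
  have hma : ∀ p ∈ S, AnalyticAt ℂ (fun z => (z - p) ^ m * a z) p := by
    intro p hp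
    have h1 : (fun z => (z - p) ^ m * a z) = fun z => (z - p) ^ (m - na p) *
        ((z - p) ^ na p • a z) := by
      funext z
      rw [smul_eq_mul, ← mul_assoc, ← pow_add, Nat.sub_add_cancel]
      exact (Nat.le_add_right _ _).trans (hmS p hp)
    rw [h1]
    exact (((analyticAt_id.sub analyticAt_const).pow _)).fun_mul (hna p)
  have hmb : ∀ p ∈ S, AnalyticAt ℂ (fun z => (z - p) ^ m * b z) p := by
    intro p hp
    have h1 : (fun z => (z - p) ^ m * b z) = fun z => (z - p) ^ (m - nb p) *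
        ((z - p) ^ nb p • b z) := by
      funext z
      rw [smul_eq_mul, ← mul_assoc, ← pow_add, Nat.sub_add_cancel]
      exact (Nat.le_add_left _ _).trans (hmS p hp)
    rw [h1]
    exact (((analyticAt_id.sub analyticAt_const).pow _)).fun_mul (hnb p)
  let n : ℕ := 2 * m * S.card + 1
  let ι := Fin (n + 1) × Fin (n + 1)
  let H : ℂ → ι → ℂ → ℂ := fun p x z => ((z - p) ^ m * a z) ^ (x.1 : ℕ) *
    ((z - p) ^ m * b z) ^ (x.2 : ℕ) * (z - p) ^ (m * (2 * n - x.1 - x.2))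
  have hHan : ∀ p ∈ S, ∀ x, AnalyticAt ℂ (H p x) p := fun p hp x =>
    (((hma p hp).fun_pow _).fun_mul ((hmb p hp).fun_pow _)).fun_mul
      ((analyticAt_id.sub analyticAt_const).fun_pow _)
  have hHe : ∀ p x z, H p x z = (z - p) ^ (m * (2 * n)) * (a z ^ (x.1 : ℕ) * b z ^ (x.2 : ℕ)) := by
    intro p x z
    have h1 : m * (2 * n) = m * x.1 + m * x.2 + m * (2 * n - x.1 - x.2) := by
      have h2 := x.1.2
      have h3 := x.2.2
      rw [← mul_add, ← mul_add]
      congr 1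
      omega
    simp only [H]
    rw [h1, pow_add, pow_add, mul_pow, mul_pow, ← pow_mul, ← pow_mul]
    ring
  -- the linear system
  let κ := (S × Fin (m * (2 * n))) ⊕ Unit
  have hcard : Fintype.card κ < Fintype.card ι := by
    simp only [κ, ι, Fintype.card_sum, Fintype.card_prod, Fintype.card_fin, Fintype.card_coe,
      Fintype.card_unit]
    simp only [n]
    nlinarith [Nat.zero_le (m * S.card)]
  obtain ⟨c, hc0, hc⟩ := exists_coeff hcard (fun k x => k.elim
    (fun q => iteratedDeriv (q.2 : ℕ) (H q.1 x) q.1)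
    (fun _ => a z0 ^ (x.1 : ℕ) * b z0 ^ (x.2 : ℕ)))
  let G : ℂ → ℂ := fun z => ∑ x, c x * (a z ^ (x.1 : ℕ) * b z ^ (x.2 : ℕ))
  have hGm : G ∈ Ell ω₁ ω₂ := by
    have h1 : G = ∑ x : ι, algebraMap ℂ (ℂ → ℂ) (c x) * (a ^ (x.1 : ℕ) * b ^ (x.2 : ℕ)) := by
      funext z
      simp only [G, Finset.sum_apply, Pi.mul_apply, Pi.pow_apply]
      rfl
    rw [h1]
    exact (Ell ω₁ ω₂).sum_mem fun x _ => (Ell ω₁ ω₂).mul_mem ((Ell ω₁ ω₂).algebraMap_mem _)
      ((Ell ω₁ ω₂).mul_mem ((Ell ω₁ ω₂).pow_mem ha _) ((Ell ω₁ ω₂).pow_mem hb _))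
  set g := toMeromorphicNFOn G univ with hg
  have hgan : ∀ z, ‖z‖ ≤ r → AnalyticAt ℂ g z := by
    intro z hz
    by_cases hzU : z ∈ U
    · apply nf_an hGm.1 (u := G) _ (EventuallyEq.refl _ _)
      exact Finset.analyticAt_fun_sum _ fun x _ => analyticAt_const.fun_mul
        ((hzU.1.fun_pow _).fun_mul (hzU.2.fun_pow _))
    · have hzS : z ∈ S := hSfin.mem_toFinset.2 ⟨hzU, by rwa [mem_closedBall_zero_iff]⟩
      obtain ⟨u, hu, hu'⟩ := vanish_order (H := H z) (hHan z hzS) (K := m * (2 * n)) (c := c)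
        (fun k hk => hc (Sum.inl (⟨z, hzS⟩, ⟨k, hk⟩)))
      refine nf_an hGm.1 hu ?_
      filter_upwards [hu'.filter_mono nhdsWithin_le_nhds, self_mem_nhdsWithin] with y h1 h2
      have h3 : (y - z) ^ (m * (2 * n)) ≠ 0 := pow_ne_zero _ (sub_ne_zero.2 h2)
      apply mul_left_cancel₀ h3
      rw [← h1, Finset.mul_sum]
      refine Finset.sum_congr rfl fun x _ => ?_
      rw [hHe]
      ring
  have hconst := ell_liouville hind (fun z => nf_per hGm.1 hGm.2.1 z)
    (fun z => nf_per hGm.1 hGm.2.2 z) hgan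
  have hG0 : G z0 = g z0 := by
    refine eq_of_codis (f := G) (g := fun _ => g z0) ?_ ?_ continuousAt_const
    · filter_upwards [nf_codis hGm.1] with z hz
      rw [hz]
      exact hconst z z0
    · exact (Finset.analyticAt_fun_sum (f := fun (x : ι) z =>
        c x * (a z ^ (x.1 : ℕ) * b z ^ (x.2 : ℕ))) Finset.univ fun x _ => analyticAt_const.fun_mul
        ((hz0.1.fun_pow _).fun_mul (hz0.2.fun_pow _))).continuousAt
  have hGz0 : G z0 = 0 := by
    rw [← hc (Sum.inr ())]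
    simp only [G, Sum.elim_inr]
    refine Finset.sum_congr rfl fun x _ => ?_
    ring
  have hGall : ∀ᶠ z in codiscrete ℂ, G z = 0 := by
    filter_upwards [nf_codis hGm.1] with z hz
    rw [hz, ← hGz0, hG0]
    exact hconst z z0
  -- the polynomial
  let e : ι → (Fin 2 →₀ ℕ) := fun x => Finsupp.single 0 (x.1 : ℕ) + Finsupp.single 1 (x.2 : ℕ)
  have he : ∀ x y, e x = e y → x = y := by
    intro x y h
    have h1 := DFunLike.congr_fun h 0
    have h2 := DFunLike.congr_fun h 1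
    simp only [e, Finsupp.add_apply, Finsupp.single_apply] at h1 h2
    simp at h1 h2
    exact Prod.ext (Fin.ext h1) (Fin.ext h2)
  refine ⟨∑ x : ι, monomial (e x) (c x), ?_, ?_⟩
  · intro h0
    apply hc0
    funext x
    have h1 := congrArg (coeff (e x)) h0
    rw [coeff_sum, coeff_zero] at h1
    simp only [coeff_monomial] at h1
    rw [Finset.sum_eq_single x (fun y _ hy => if_neg fun h => hy (he _ _ h))
      (fun h => absurd (Finset.mem_univ x) h), if_pos rfl] at h1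
    exact h1
  · filter_upwards [hGall] with z hz
    rw [map_sum, ← hz]
    refine Finset.sum_congr rfl fun x _ => ?_
    rw [eval_monomial]
    congr 1
    simp only [e]
    rw [Finsupp.prod_fintype _ _ (fun _ => pow_zero _), Fin.prod_univ_two]
    simp [Finsupp.single_apply]

theorem trOne_ell {ω₁ ω₂ : ℂ} (hind : LinearIndependent ℝ ![ω₁, ω₂]) : TrOne (Ell ω₁ ω₂) where
  mero := fun b hb => hb.1
  der := by
    rintro b ⟨h1, h2, h3⟩
    refine ⟨h1.deriv, fun z => ?_, fun z => ?_⟩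
    · rw [← deriv_comp_add_const b ω₁ z]
      congr 1
      exact funext h2
    · rw [← deriv_comp_add_const b ω₂ z]
      congr 1
      exact funext h3
  dep := fun a ha b hb => ell_dep hind ha hb

/-- the elements of a differential ring satisfy linear equations over it -/
theorem linB_of_mem {B : Subalgebra ℂ (ℂ → ℂ)} (hB : TrOne B) {h : ℂ → ℂ} (hh : h ∈ B) :
    LinB B h := by
  by_cases h0 : ∀ᶠ z in codiscrete ℂ, h z = 0
  · refine ⟨0, fun _ => 1, fun _ => B.one_mem, ⟨0, le_refl _, fun h1 => ?_⟩, ?_⟩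
    · obtain ⟨z, hz⟩ := h1.exists
      exact one_ne_zero hz
    · filter_upwards [h0] with z hz
      simp [hz]
  · refine ⟨1, fun k => if k = 0 then -deriv h else h, fun k => ?_, ⟨1, le_refl _, ?_⟩, ?_⟩
    · by_cases hk : k = 0
      · simp only [if_pos hk]
        exact B.neg_mem (hB.der h hh)
      · simp only [if_neg hk]
        exact hh
    · simpa using h0
    · refine Eventually.of_forall fun z => ?_
      rw [Finset.sum_range_succ, Finset.sum_range_one]
      simp only [if_pos, if_neg one_ne_zero, iteratedDeriv_zero, iteratedDeriv_one]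
      simp
      ring

open scoped LinearAlgebra.Projectivization

variable {N : ℕ}

/-- coordinates of a map from a torus -/
theorem torus_coords {ω₁ ω₂ : ℂ} (hind : LinearIndependent ℝ ![ω₁, ω₂])
    {f : ℂ → ℙ ℂ (Fin (N + 1) → ℂ)} (hf : HolMap f) (h1 : ∀ z, f (z + ω₁) = f z)
    (h2 : ∀ z, f (z + ω₂) = f z) : ∃ h : Fin (N + 1) → ℂ → ℂ, (∀ j, Meromorphic (h j)) ∧
      (∀ j, LinB (Ell ω₁ ω₂) (h j)) ∧ ∀ᶠ z in codiscrete ℂ, Rep (f z) fun j => h j z := by
  obtain ⟨j0, hj0⟩ := Function.ne_iff.1 (f 0).rep_nonzero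
  have hj0' : (f 0).rep j0 ≠ 0 := hj0
  let h : Fin (N + 1) → ℂ → ℂ := fun j z => (f z).rep j / (f z).rep j0
  have hloc : ∀ a, ∃ g : Fin (N + 1) → ℂ → ℂ, (∀ j, AnalyticAt ℂ (g j) a) ∧
      ∀ j, h j =ᶠ[𝓝 a] fun z => g j z / g j0 z := by
    intro a
    obtain ⟨g, hg, hgr⟩ := hf a
    refine ⟨g, hg, fun j => ?_⟩
    filter_upwards [hgr] with z hz
    obtain ⟨h3, h4⟩ := (rep_iff hz).1 (rep_rep (f z))
    change (f z).rep j / (f z).rep j0 = g j z / g j0 z
    have h5 := h4 j j0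
    by_cases h6 : g j0 z = 0
    · have h7 : (f z).rep j0 = 0 := by
        obtain ⟨k, hk⟩ := Function.ne_iff.1 hz.1
        have hk' : g k z ≠ 0 := hk
        have h8 := h4 k j0
        rw [h6, zero_mul] at h8
        exact (mul_eq_zero.1 h8).resolve_left hk'
      rw [h6, h7, div_zero, div_zero]
    · have h7 : (f z).rep j0 ≠ 0 := by
        intro h7
        rw [h7, mul_zero] at h5
        obtain ⟨k, hk⟩ := Function.ne_iff.1 h3
        have hk' : (f z).rep k ≠ 0 := hk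
        have h8 := h4 k j0
        rw [h7, mul_zero] at h8
        exact (mul_ne_zero h6 hk') h8.symm
      rw [div_eq_div_iff h7 h6]
      linear_combination -h5
  have hm : ∀ j, Meromorphic (h j) := by
    intro j a
    obtain ⟨g, hg, hge⟩ := hloc a
    exact ((hg j).meromorphicAt.div (hg j0).meromorphicAt).congr
      ((hge j).symm.filter_mono nhdsWithin_le_nhds)
  have hE : ∀ j, h j ∈ Ell ω₁ ω₂ := fun j => ⟨hm j, fun z => by simp only [h, h1], fun z => by
    simp only [h, h2]⟩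
  refine ⟨h, hm, fun j => linB_of_mem (trOne_ell hind) (hE j), ?_⟩
  -- the coordinate `j0` is one outside of a discrete set
  have h3 : ∀ᶠ z in codiscrete ℂ, h j0 z = 1 := by
    apply mero_id2 (hm j0) (Meromorphic.const 1) (x := 0)
    apply freq_of_ev
    obtain ⟨g, hg, hgr⟩ := hf 0
    have h4 : g j0 0 ≠ 0 := by
      intro h6
      obtain ⟨h7, h8⟩ := (rep_iff hgr.self_of_nhds).1 (rep_rep (f 0))
      obtain ⟨k, hk⟩ := Function.ne_iff.1 hgr.self_of_nhds.1
      have hk' : g k 0 ≠ 0 := hk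
      have h9 := h8 k j0
      rw [h6, zero_mul] at h9
      exact hj0' ((mul_eq_zero.1 h9).resolve_left hk')
    filter_upwards [hgr, (hg j0).continuousAt.eventually_ne h4] with z hz hz'
    change (f z).rep j0 / (f z).rep j0 = 1
    apply div_self
    intro h7
    obtain ⟨h3, h4⟩ := (rep_iff hz).1 (rep_rep (f z))
    obtain ⟨k, hk⟩ := Function.ne_iff.1 h3
    have hk' : (f z).rep k ≠ 0 := hk
    have h8 := h4 k j0
    rw [h7, mul_zero] at h8
    exact (mul_ne_zero hz' hk') h8.symm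
  filter_upwards [h3] with z hz
  have h4 : (f z).rep j0 ≠ 0 := by
    intro h5
    change (f z).rep j0 / (f z).rep j0 = 1 at hz
    rw [h5, div_zero] at hz
    exact zero_ne_one hz
  have h5 : (fun j => h j z) = fun j => ((f z).rep j0)⁻¹ * (f z).rep j := by
    funext j
    simp only [h]
    rw [div_eq_mul_inv, mul_comm]
  rw [h5]
  exact (rep_smul (inv_ne_zero h4)).2 (rep_rep (f z))

end Pool.Agent.TH143.EL
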