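import Pool.Agent.TH143.EL.Ell

/-!
Examples of differential rings of transcendence degree at most one: polynomials in `z`,
polynomials in `exp (a z)`.
-/

set_option autoImplicit false

namespace Pool.Agent.TH143.EL

open Filter Topology Set MvPolynomial

theorem mem_adjoin_iff {φ b : ℂ → ℂ} : b ∈ Algebra.adjoin ℂ {φ} ↔
    ∃ P : Polynomial ℂ, ∀ z, b z = P.eval (φ z) := by
  rw [Algebra.adjoin_singleton_eq_range_aeval]
  have h : ∀ (P : Polynomial ℂ) (z : ℂ), (Polynomial.aeval φ P) z = P.eval (φ z) := by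
    intro P z
    have h1 := Polynomial.aeval_algHom_apply (Pi.evalAlgHom ℂ (fun _ : ℂ => ℂ) z) φ P
    rw [Polynomial.coe_aeval_eq_eval] at h1
    exact h1.symm
  constructor
  · rintro ⟨P, rfl⟩
    exact ⟨P, fun z => h P z⟩
  · rintro ⟨P, hP⟩
    exact ⟨P, funext fun z => by rw [hP z]; exact h P z⟩

theorem trOne_adjoin {φ : ℂ → ℂ} {Q : Polynomial ℂ} (hφ : ∀ z, HasDerivAt φ (Q.eval (φ z)) z) :
    TrOne (Algebra.adjoin ℂ {φ}) where
  mero := by
    intro b hb
    obtain ⟨P, hP⟩ := mem_adjoin_iff.1 hb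
    have h1 : b = fun z => P.eval (φ z) := funext hP
    have h2 : Differentiable ℂ b := by
      rw [h1]
      exact P.differentiable.comp fun z => (hφ z).differentiableAt
    exact fun z => (h2.analyticAt z).meromorphicAt
  der := by
    intro b hb
    obtain ⟨P, hP⟩ := mem_adjoin_iff.1 hb
    refine mem_adjoin_iff.2 ⟨Polynomial.derivative P * Q, fun z => ?_⟩
    have h1 : b = fun z => P.eval (φ z) := funext hP
    rw [h1, Polynomial.eval_mul]
    exact ((P.hasDerivAt (φ z)).comp z (hφ z)).deriv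
  dep := by
    intro b hb c hc
    obtain ⟨P, hP⟩ := mem_adjoin_iff.1 hb
    obtain ⟨R, hR⟩ := mem_adjoin_iff.1 hc
    have h1 : ¬ AlgebraicIndependent ℂ ![P, R] := by
      intro h2
      have h3 := h2.cardinalMk_le_trdeg
      rw [Polynomial.trdeg_of_isDomain, Cardinal.mk_fin] at h3
      exact absurd h3 (by norm_num)
    rw [algebraicIndependent_iff] at h1
    push Not at h1
    obtain ⟨T, hT, hT0⟩ := h1
    refine ⟨T, hT0, Eventually.of_forall fun z => ?_⟩
    have h4 := eval_comp_poly ![P, R] T (φ z)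
    rw [hT, Polynomial.eval_zero] at h4
    rw [h4]
    congr 2
    funext j
    fin_cases j
    · exact hP z
    · exact hR z

/-- polynomials in `z` -/
theorem trOne_poly : TrOne (Algebra.adjoin ℂ {fun z : ℂ => z}) :=
  trOne_adjoin (Q := 1) fun z => by
    rw [Polynomial.eval_one]
    exact hasDerivAt_id z

/-- polynomials in `exp (a z)` -/
theorem trOne_exp (a : ℂ) : TrOne (Algebra.adjoin ℂ {fun z : ℂ => Complex.exp (a * z)}) :=
  trOne_adjoin (Q := Polynomial.C a * Polynomial.X) fun z => by
    rw [Polynomial.eval_mul, Polynomial.eval_C, Polynomial.eval_X, mul_comm]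
    have := ((hasDerivAt_id z).const_mul a).cexp
    simpa using this

end Pool.Agent.TH143.EL
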