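import Pool.Agent.TH143.EL.Fld

/-!
Meromorphic functions of transcendence degree one.
-/

set_option autoImplicit false

namespace Pool.Agent.TH143.EL

open Filter Topology Set Polynomial Algebra

theorem mem_cl {s : Set MK} {a : MK} :
    a ∈ (AlgebraicIndependent.matroid ℂ MK).closure s ↔ IsAlgebraic (Algebra.adjoin ℂ s) a := by
  rw [AlgebraicIndependent.matroid_closure_eq]
  exact Subalgebra.mem_algebraicClosure _ _

theorem pair_indep {x y : MK} (hx : Transcendental ℂ x)
    (hy : Transcendental (Algebra.adjoin ℂ {x}) y) : AlgebraicIndependent ℂ ![x, y] := by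
  rw [AlgebraicIndependent.iff_transcendental_adjoin_image 1]
  constructor
  · let _ : Unique {j : Fin 2 // j ≠ 1} :=
      { default := ⟨0, by decide⟩
        uniq := by
          rintro ⟨j, hj⟩
          apply Subtype.ext
          change j = 0
          fin_cases j
          · rfl
          · exact absurd rfl hj }
    rw [algebraicIndependent_unique_type_iff]
    exact hx
  · have h1 : (![x, y] '' {1}ᶜ : Set MK) = {x} := by
      ext t
      constructor
      · rintro ⟨j, hj, rfl⟩
        fin_cases j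
        · rfl
        · exact absurd rfl hj
      · rintro rfl
        exact ⟨0, by simp, rfl⟩
    rw [h1]
    exact hy

/-- the pairwise condition gives a common base -/
theorem exists_base (Bs : Subalgebra ℂ MK)
    (hB : ∀ x ∈ Bs, ∀ y ∈ Bs, ¬ AlgebraicIndependent ℂ ![x, y]) :
    ∃ b0 : MK, (Bs : Set MK) ⊆ (AlgebraicIndependent.matroid ℂ MK).closure {b0} := by
  by_cases h : ∃ b0 ∈ Bs, Transcendental ℂ b0
  · obtain ⟨b0, hb0, ht⟩ := h
    refine ⟨b0, fun b hb => ?_⟩
    rw [mem_cl]
    by_contra hcon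
    exact hB b0 hb0 b hb (pair_indep ht hcon)
  · push Not at h
    refine ⟨0, fun b hb => ?_⟩
    rw [mem_cl]
    have h1 : IsAlgebraic ℂ b := by
      have := h b hb
      unfold Transcendental at this
      exact not_not.1 this
    exact h1.extendScalars (algebraMap ℂ (Algebra.adjoin ℂ {(0 : MK)})).injective

theorem alg_dep (Bs : Subalgebra ℂ MK)
    (hB : ∀ x ∈ Bs, ∀ y ∈ Bs, ¬ AlgebraicIndependent ℂ ![x, y]) {a b : MK}
    (ha : IsAlgebraic Bs a) (hb : IsAlgebraic Bs b) (ht : Transcendental ℂ a) :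
    IsAlgebraic (Algebra.adjoin ℂ {a}) b := by
  obtain ⟨b0, hb0⟩ := exists_base Bs hB
  have h1 : ∀ x : MK, IsAlgebraic Bs x → x ∈ (AlgebraicIndependent.matroid ℂ MK).closure {b0} := by
    intro x hx
    have h2 : x ∈ (AlgebraicIndependent.matroid ℂ MK).closure (Bs : Set MK) := by
      rw [mem_cl, Algebra.adjoin_eq]
      exact hx
    have h3 := (AlgebraicIndependent.matroid ℂ MK).closure_subset_closure hb0
    rw [Matroid.closure_closure] at h3
    exact h3 h2
  have h2 := h1 a ha
  have h3 := h1 b hb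
  have h4 : a ∉ (AlgebraicIndependent.matroid ℂ MK).closure ∅ := by
    rw [mem_cl, Algebra.adjoin_empty]
    intro h5
    exact ht (Subalgebra.isAlgebraic_of_isAlgebraic_bot h5)
  have h5 : b0 ∈ (AlgebraicIndependent.matroid ℂ MK).closure {a} := by
    have h6 := (AlgebraicIndependent.matroid ℂ MK).mem_closure_insert (f := b0) h4 (by
      rw [insert_empty_eq]; exact h2)
    rwa [insert_empty_eq] at h6
  have h6 := (AlgebraicIndependent.matroid ℂ MK).closure_subset_closure
    (Set.singleton_subset_iff.2 h5)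
  rw [Matroid.closure_closure] at h6
  exact mem_cl.1 (h6 h3)

/-- a polynomial relation with nonzero partial derivative -/
theorem exists_P {a b : MK} (ha : Transcendental ℂ a)
    (hb : IsAlgebraic (Algebra.adjoin ℂ {a}) b) :
    ∃ P : ℂ[X][X], ev2 a b P = 0 ∧ ev2 a b (derivative P) ≠ 0 := by
  classical
  obtain ⟨p, hp0, hp⟩ := hb
  let a' : Algebra.adjoin ℂ {a} := ⟨a, Algebra.subset_adjoin (Set.mem_singleton a)⟩
  let ρ : ℂ[X] →+* Algebra.adjoin ℂ {a} := (aeval a' : ℂ[X] →ₐ[ℂ] _).toRingHom
  have hρ : Function.Surjective ρ := by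
    rintro ⟨s, hs⟩
    rw [Algebra.adjoin_singleton_eq_range_aeval] at hs
    obtain ⟨q, hq⟩ := hs
    refine ⟨q, Subtype.ext ?_⟩
    change ((aeval a' q : Algebra.adjoin ℂ {a}) : MK) = s
    rw [← hq]
    exact (Polynomial.aeval_algHom_apply (Algebra.adjoin ℂ {a}).val a' q).symm
  obtain ⟨P0, hP0⟩ := Polynomial.map_surjective ρ hρ p
  have hev : ev2 a b P0 = 0 := by
    rw [← hp, ← hP0]
    unfold ev2
    rw [coe_eval₂RingHom, aeval_def, eval₂_map]
    congr 1
    ext x
    · change aeval a (C x) = ((aeval a' (C x) : Algebra.adjoin ℂ {a}) : MK)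
      rw [aeval_C, aeval_C]
      rfl
    · change aeval a X = ((aeval a' X : Algebra.adjoin ℂ {a}) : MK)
      rw [aeval_X, aeval_X]
  have hP0' : P0 ≠ 0 := by
    rintro rfl
    rw [Polynomial.map_zero] at hP0
    exact hp0 hP0.symm
  obtain ⟨P, ⟨hPne, hP⟩, hmin⟩ := WellFounded.has_min
    (measure (fun P : ℂ[X][X] => P.natDegree)).wf {P | P ≠ 0 ∧ ev2 a b P = 0} ⟨P0, hP0', hev⟩
  refine ⟨P, hP, fun hd => ?_⟩
  by_cases hd0 : derivative P = 0
  · have h1 := Polynomial.derivative_eq_zero.1 hd0
    rw [Polynomial.natDegree_eq_zero] at h1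
    obtain ⟨c, rfl⟩ := h1
    rw [ev2_C] at hP
    exact ha ⟨c, fun h0 => hPne (by rw [h0, map_zero]), hP⟩
  · refine hmin _ ⟨hd0, hd⟩ ?_
    change (derivative P).natDegree < P.natDegree
    apply Polynomial.natDegree_derivative_lt
    intro h0
    apply hd0
    exact Polynomial.derivative_eq_zero.2 h0

/-- the derivative of an algebraic element is algebraic -/
theorem alg_MD {Bs : Subalgebra ℂ MK} (hD : ∀ x ∈ Bs, MD x ∈ Bs) {x : MK}
    (hx : IsAlgebraic Bs x) : IsAlgebraic Bs (MD x) := by
  classical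
  have hder : ∀ p : Bs[X], ∃ q : Bs[X],
      MD (aeval x p) = aeval x q + aeval x (derivative p) * MD x := by
    intro p
    induction p using Polynomial.induction_on' with
    | add p q hp hq =>
      obtain ⟨p', hp'⟩ := hp
      obtain ⟨q', hq'⟩ := hq
      refine ⟨p' + q', ?_⟩
      rw [map_add, MD_add, hp', hq', map_add, derivative_add, map_add]
      ring
    | monomial n c =>
      refine ⟨monomial n ⟨MD c, hD _ c.2⟩, ?_⟩
      rw [aeval_monomial, MD_mul, aeval_monomial, derivative_monomial, aeval_monomial]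
      have h1 : MD (x ^ n) = n * x ^ (n - 1) * MD x := by
        have := MDer.leibniz_pow x n
        rw [MDer_apply, MDer_apply, smul_eq_mul, nsmul_eq_mul] at this
        rw [this]
        ring
      rw [h1, map_mul, map_natCast]
      change (c : MK) * _ + _ * MD (c : MK) = MD (c : MK) * x ^ n + _
      have h2 : (algebraMap Bs MK) c = (c : MK) := rfl
      rw [h2]
      ring
  obtain ⟨p0, hp0, hp0'⟩ := hx
  obtain ⟨p, ⟨hpne, hp⟩, hmin⟩ := WellFounded.has_min
    (measure (fun p : Bs[X] => p.natDegree)).wf {p | p ≠ 0 ∧ aeval x p = 0} ⟨p0, hp0, hp0'⟩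
  have hd : aeval x (derivative p) ≠ 0 := by
    intro hd
    by_cases hd0 : derivative p = 0
    · have h1 := Polynomial.derivative_eq_zero.1 hd0
      rw [Polynomial.natDegree_eq_zero] at h1
      obtain ⟨c, rfl⟩ := h1
      have hp' : aeval x (C c) = 0 := hp
      rw [aeval_C] at hp'
      apply hpne
      have h2 : c = 0 := Subtype.ext hp'
      rw [h2, map_zero]
    · refine hmin _ ⟨hd0, hd⟩ ?_
      change (derivative p).natDegree < p.natDegree
      apply Polynomial.natDegree_derivative_lt
      intro h0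
      apply hd0
      exact Polynomial.derivative_eq_zero.2 h0
  obtain ⟨q, hq⟩ := hder p
  have hp' : aeval x p = 0 := hp
  rw [hp'] at hq
  have h0 : MD 0 = 0 := by
    have := MDer.map_zero
    rwa [MDer_apply] at this
  rw [h0] at hq
  have h1 : MD x = -(aeval x q) * (aeval x (derivative p))⁻¹ := by
    rw [eq_mul_inv_iff_mul_eq₀ hd]
    linear_combination -hq
  have hmem : ∀ r : Bs[X], IsAlgebraic Bs (aeval x r) := by
    intro r
    have hx' : x ∈ Subalgebra.algebraicClosure Bs MK := ⟨p, hpne, hp⟩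
    have h2 : ((aeval (⟨x, hx'⟩ : Subalgebra.algebraicClosure Bs MK) r :
        Subalgebra.algebraicClosure Bs MK) : MK) = aeval x r := by
      have h3 := Polynomial.aeval_algHom_apply (Subalgebra.algebraicClosure Bs MK).val
        (⟨x, hx'⟩ : Subalgebra.algebraicClosure Bs MK) r
      exact h3.symm
    rw [← h2]
    exact (aeval (⟨x, hx'⟩ : Subalgebra.algebraicClosure Bs MK) r).2
  rw [h1]
  exact (hmem q).neg.mul (hmem _).inv

/-- the derivative of a relation -/
theorem MD_ev2 (x y : MK) (P : ℂ[X][X]) : ∃ Q : ℂ[X][X],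
    MD (ev2 x y P) = ev2 x y Q * MD x + ev2 x y (derivative P) * MD y := by
  have hpow : ∀ (y : MK) (n : ℕ), MD (y ^ n) = n * y ^ (n - 1) * MD y := by
    intro y n
    have := MDer.leibniz_pow y n
    rw [MDer_apply, MDer_apply, smul_eq_mul, nsmul_eq_mul] at this
    rw [this]
    ring
  have hder : ∀ p : ℂ[X], MD (aeval x p) = aeval x (derivative p) * MD x := by
    intro p
    induction p using Polynomial.induction_on' with
    | add p q hp hq => rw [map_add, MD_add, hp, hq, derivative_add, map_add]; ring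
    | monomial n c =>
      rw [aeval_monomial, MD_mul, MD_const, mul_zero, add_zero, hpow, derivative_monomial,
        aeval_monomial, map_mul, map_natCast]
      ring
  induction P using Polynomial.induction_on' with
  | add p q hp hq =>
    obtain ⟨p', hp'⟩ := hp
    obtain ⟨q', hq'⟩ := hq
    refine ⟨p' + q', ?_⟩
    rw [map_add, MD_add, hp', hq', map_add, derivative_add, map_add]
    ring
  | monomial n c =>
    refine ⟨C (derivative c) * X ^ n, ?_⟩
    rw [← C_mul_X_pow_eq_monomial, map_mul, map_pow, ev2_C, ev2_X, MD_mul, hpow, hder,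
      derivative_C_mul_X_pow, map_mul, map_pow, map_mul, map_pow, ev2_C, ev2_C, ev2_X, map_mul,
      map_natCast]
    ring

open MvPolynomial in
/-- The algebraic differential equations of a family of functions of transcendence degree one. -/
theorem exists_ode {σ : Type} [Fintype σ] (v : σ → MK) (i0 i1 : σ)
    (h01 : v i1 = MD (v i0)) (hv : ∀ j, ∃ P : ℂ[X][X], ev2 (v i0) (v j) P = 0 ∧
      ev2 (v i0) (v j) (derivative P) ≠ 0) :
    ∃ (s : MvPolynomial σ ℂ) (R : σ → MvPolynomial σ ℂ), MvPolynomial.aeval v s ≠ 0 ∧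
      ∀ j, MvPolynomial.aeval v s * MD (v j) = MvPolynomial.aeval v (R j) := by
  classical
  choose P hP hP' using hv
  choose Q hQ using fun j => MD_ev2 (v i0) (v j) (P j)
  have h0 : MD 0 = 0 := by
    have := MDer.map_zero
    rwa [MDer_apply] at this
  have hc : ∀ (j : σ) (T : ℂ[X][X]), MvPolynomial.aeval v (ev2 (MvPolynomial.X i0)
      (MvPolynomial.X j) T : MvPolynomial σ ℂ) = ev2 (v i0) (v j) T := by
    intro j T
    rw [ev2_hom, MvPolynomial.aeval_X, MvPolynomial.aeval_X]
  let S : σ → MvPolynomial σ ℂ := fun j => ev2 (MvPolynomial.X i0) (MvPolynomial.X j)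
    (derivative (P j))
  let R0 : σ → MvPolynomial σ ℂ := fun j => -(ev2 (MvPolynomial.X i0) (MvPolynomial.X j) (Q j)) *
    MvPolynomial.X i1
  have hSR : ∀ j, MvPolynomial.aeval v (S j) * MD (v j) = MvPolynomial.aeval v (R0 j) := by
    intro j
    have h1 := hQ j
    rw [hP j, h0] at h1
    simp only [S, R0, map_mul, map_neg, hc, MvPolynomial.aeval_X, h01]
    linear_combination -h1
  refine ⟨∏ j, S j, fun j => (∏ i ∈ Finset.univ.erase j, S i) * R0 j, ?_, fun j => ?_⟩
  · rw [map_prod, Finset.prod_ne_zero_iff]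
    intro j _
    rw [hc]
    exact hP' j
  · rw [← Finset.mul_prod_erase _ _ (Finset.mem_univ j), map_mul, map_mul, ← hSR j]
    ring

/-- classes of polynomial expressions -/
theorem aeval_cl {σ : Type} [Fintype σ] (w : σ → ℂ → ℂ) (hw : ∀ j, Meromorphic (w j))
    (T : MvPolynomial σ ℂ) : MvPolynomial.aeval (fun j => cl (w j) (hw j)) T =
      cl (fun z => MvPolynomial.eval (fun j => w j z) T) (mero_eval hw T) := by
  have h1 : ∀ z, (MvPolynomial.aeval (fun j => (⟨w j, hw j⟩ : MerS)) T).1 z =
      MvPolynomial.eval (fun j => w j z) T := by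
    intro z
    have h2 := MvPolynomial.comp_aeval_apply (f := fun j => (⟨w j, hw j⟩ : MerS)) (evS z) T
    have h3 : evS z (MvPolynomial.aeval (fun j => (⟨w j, hw j⟩ : MerS)) T) =
        (MvPolynomial.aeval (fun j => (⟨w j, hw j⟩ : MerS)) T).1 z := rfl
    rw [← h3, h2]
    have h6 : (fun i => evS z (⟨w i, hw i⟩ : MerS)) = fun j => w j z := rfl
    rw [h6, MvPolynomial.aeval_eq_eval]
  have h4 := MvPolynomial.comp_aeval_apply (f := fun j => (⟨w j, hw j⟩ : MerS))
    (Ideal.Quotient.mkₐ ℂ MJ) T
  have h5 : MvPolynomial.aeval (fun j => cl (w j) (hw j)) T =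
      Ideal.Quotient.mkₐ ℂ MJ (MvPolynomial.aeval (fun j => (⟨w j, hw j⟩ : MerS)) T) := h4.symm
  rw [h5]
  change Ideal.Quotient.mk MJ _ = Ideal.Quotient.mk MJ _
  congr 1
  exact Subtype.ext (funext h1)

end Pool.Agent.TH143.EL
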