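import Pool.Agent.TH143.EL.Rat

/-!
Simply periodic meromorphic functions with fibres finite up to the period.
-/

set_option autoImplicit false

namespace Pool.Agent.TH143.EL

open Filter Topology Set Function.Periodic

/-- nonconstant meromorphic functions -/
def NC (q : ℂ → ℂ) : Prop := ¬ ∃ c, ∀ᶠ z in codiscrete ℂ, q z = c

theorem NC.local {q : ℂ → ℂ} (hq : Meromorphic q) (h : NC q) (z : ℂ) :
    ¬ ∀ᶠ y in 𝓝 z, q y = q z := by
  intro h1
  exact h ⟨q z, mero_id2 hq (Meromorphic.const (q z)) (freq_of_ev h1)⟩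

theorem pull_codis {φ : ℂ → ℂ} (hφ : ∀ z, ∃ d, d ≠ 0 ∧ HasDerivAt φ d z) {p : ℂ → Prop}
    (h : ∀ᶠ t in codiscrete ℂ, p t) : ∀ᶠ z in codiscrete ℂ, p (φ z) := by
  apply codis_of_ev
  intro x
  obtain ⟨d, hd, hφx⟩ := hφ x
  exact (hφx.tendsto_nhdsNE hd).eventually (codis_ev h (φ x))

theorem poly_codis {B : Polynomial ℂ} (hB : B ≠ 0) : ∀ᶠ t in codiscrete ℂ, B.eval t ≠ 0 := by
  apply codis_of_ev
  intro x
  have h1 : AnalyticAt ℂ (fun z => B.eval z) x := B.differentiable.analyticAt x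
  rcases h1.eventually_eq_zero_or_eventually_ne_zero with h2 | h2
  · exfalso
    apply hB
    apply Polynomial.eq_zero_of_infinite_isRoot
    have h3 : {z : ℂ | B.eval z = 0} ∈ 𝓝 x := h2
    exact infinite_of_mem_nhds x h3
  · exact h2

theorem case_zero {q : ℂ → ℂ} (hq : Meromorphic q) (hnc : NC q) {Ω : Set ℂ}
    (hΩ : Ω ∈ codiscrete ℂ) (han : ∀ z ∈ Ω, AnalyticAt ℂ q z) {E : Set ℂ} (hE : E.Finite)
    (hfib : ∀ c ∉ E, ∃ T : Set ℂ, T.Finite ∧ ∀ z ∈ Ω, q z = c → z ∈ T) :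
    ∃ A B : Polynomial ℂ, B ≠ 0 ∧ ∀ᶠ z in codiscrete ℂ, B.eval z * q z = A.eval z := by
  obtain ⟨n, c, ε, hε, h⟩ := baire_gap (q := q) (V := fun n : ℕ => Ω ∩ {z | (n : ℝ) < ‖z‖})
    (fun n => (codis_open hΩ).inter (isOpen_lt continuous_const continuous_norm))
    (fun n z hz => han z hz.1) (fun n z _ => hnc.local hq z) hE (by
      intro c hc
      obtain ⟨T, hT, hTz⟩ := hfib c hc
      obtain ⟨M, hM⟩ := (hT.image norm).bddAbove
      obtain ⟨n, hn⟩ := exists_nat_ge M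
      refine ⟨n, fun z hz hzc => ?_⟩
      have h1 := hM ⟨z, hTz z hz.1 hzc, rfl⟩
      have h2 : (n : ℝ) < ‖z‖ := hz.2
      linarith)
  apply rat_of_gap hq (r := n) (c := c) hε
  filter_upwards [hΩ] with z hz hr
  exact h z ⟨hz, hr⟩

theorem qp_deriv (z : ℂ) : ∃ d, d ≠ 0 ∧ HasDerivAt (qParam 1) d z := by
  have h1 : HasDerivAt (qParam 1) (qParam 1 z * (2 * Real.pi * Complex.I / (1 : ℝ))) z := by
    have := (((hasDerivAt_id z).const_mul (2 * Real.pi * Complex.I)).div_const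
      (((1 : ℝ) : ℂ))).cexp
    simpa only [id_eq, mul_one] using! this
  refine ⟨_, mul_ne_zero (qParam_ne_zero z) ?_, h1⟩
  exact div_ne_zero Complex.two_pi_I_ne_zero (by norm_num)

theorem case_one1 {q : ℂ → ℂ} (hq : Meromorphic q) (hnc : NC q) {Ω : Set ℂ}
    (hΩ : Ω ∈ codiscrete ℂ) (han : ∀ z ∈ Ω, AnalyticAt ℂ q z)
    (hper : ∀ᶠ z in codiscrete ℂ, q (z + 1) = q z) {E : Set ℂ} (hE : E.Finite)
    (hfib : ∀ c ∉ E, ∃ T : Set ℂ, T.Finite ∧ ∀ z ∈ Ω, q z = c → ∃ t ∈ T, z.im = t.im) :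
    ∃ A B : Polynomial ℂ, B ≠ 0 ∧
      ∀ᶠ z in codiscrete ℂ, B.eval (qParam 1 z) * q z = A.eval (qParam 1 z) := by
  classical
  obtain ⟨n1, c1, ε1, hε1, hgap1⟩ := baire_gap (q := q)
    (V := fun n : ℕ => Ω ∩ {z | (n : ℝ) < z.im})
    (fun n => (codis_open hΩ).inter (isOpen_lt continuous_const Complex.continuous_im))
    (fun n z hz => han z hz.1) (fun n z _ => hnc.local hq z) hE (by
      intro c hc
      obtain ⟨T, hT, hTz⟩ := hfib c hc
      obtain ⟨M, hM⟩ := (hT.image Complex.im).bddAbove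
      obtain ⟨n, hn⟩ := exists_nat_ge M
      refine ⟨n, fun z hz hzc => ?_⟩
      obtain ⟨t, ht, hzt⟩ := hTz z hz.1 hzc
      have h1 := hM ⟨t, ht, rfl⟩
      have h2 : (n : ℝ) < z.im := hz.2
      linarith)
  let g0 : ℂ → ℂ := fun z => (q z - c1)⁻¹
  have hg0 : Meromorphic g0 := (hq.sub (Meromorphic.const c1)).inv
  set g := toMeromorphicNFOn g0 univ with hg
  have hgm : Meromorphic g := nf_mero
  have hgg : ∀ᶠ z in codiscrete ℂ, g0 z = g z := nf_codis hg0
  have hgnf : ∀ z, MeromorphicNFAt g z := fun z =>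
    meromorphicNFOn_toMeromorphicNFOn g0 univ (mem_univ z)
  have hb : ∀ z : ℂ, (n1 : ℝ) < z.im → AnalyticAt ℂ g z ∧ ‖g z‖ ≤ ε1⁻¹ := by
    intro z hz
    apply nf_bounded hg0
    have h1 : ∀ᶠ y in 𝓝[≠] z, (n1 : ℝ) < y.im :=
      nhdsWithin_le_nhds ((isOpen_lt continuous_const Complex.continuous_im).mem_nhds hz)
    filter_upwards [codis_punct hΩ z, h1] with y h2 h3
    have h4 := hgap1 y ⟨h2, h3⟩
    change ‖(q y - c1)⁻¹‖ ≤ ε1⁻¹
    rw [norm_inv]
    exact inv_anti₀ hε1 h4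
  have hgper : Function.Periodic g 1 := by
    intro z
    have h1 : MeromorphicNFAt (fun z => g (z + 1)) z :=
      (hgnf (z + 1)).comp_analyticAt (g := fun z => z + 1) (analyticAt_id.add analyticAt_const)
    have h2 : (fun z => g (z + 1)) =ᶠ[𝓝[≠] z] g := by
      filter_upwards [codis_ev (codis_shift 1 hgg) z, codis_ev hgg z, codis_ev hper z]
        with y h3 h4 h5
      rw [← h3, ← h4]
      change (q (y + 1) - c1)⁻¹ = (q y - c1)⁻¹
      rw [h5]
    exact ((h1.eventuallyEq_nhdsNE_iff_eventuallyEq_nhds (hgnf z)).1 h2).self_of_nhds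
  have hgper1 : Function.Periodic g ((1 : ℝ) : ℂ) := by
    rw [Complex.ofReal_one]
    exact hgper
  set R := cuspFunction 1 g with hR
  have hRg : ∀ z, R (qParam 1 z) = g z := fun z => eq_cuspFunction one_ne_zero hgper1 z
  have hcomp : R ∘ qParam 1 = g := funext hRg
  have hev : ∀ᶠ z in comap Complex.im atTop, (n1 : ℝ) < z.im := tendsto_comap.eventually_gt_atTop _
  have hhol : ∀ᶠ z in comap Complex.im atTop, DifferentiableAt ℂ g z := by
    filter_upwards [hev] with z hz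
    exact (hb z hz).1.differentiableAt
  have hRm : Meromorphic R := by
    intro t
    by_cases ht : t = 0
    · subst ht
      have h1 : DifferentiableAt ℂ R 0 := by
        apply differentiableAt_cuspFunction_zero one_pos hgper1 hhol
        apply Asymptotics.IsBigO.of_bound ε1⁻¹
        filter_upwards [hev] with z hz
        rw [Pi.one_apply, norm_one, mul_one]
        exact (hb z hz).2
      have h2 := eventually_differentiableAt_cuspFunction_nhds_ne_zero one_pos hgper1 hhol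
      have h3 : ∀ᶠ t in 𝓝 (0 : ℂ), DifferentiableAt ℂ R t := by
        rw [eventually_nhdsWithin_iff] at h2
        filter_upwards [h2] with t ht
        by_cases h : t = 0
        · rw [h]; exact h1
        · exact ht h
      have h4 : AnalyticAt ℂ R 0 := by
        rw [Complex.analyticAt_iff_eventually_differentiableAt]
        exact h3
      exact h4.meromorphicAt
    · have h1 : qParam 1 (invQParam 1 t) = t := qParam_right_inv one_ne_zero ht
      obtain ⟨d, hd, hdd⟩ := qp_deriv (invQParam 1 t)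
      have h2 : AnalyticAt ℂ (qParam 1) (invQParam 1 t) :=
        differentiable_qParam.analyticAt _
      have h3 := meromorphicAt_comp_iff_of_deriv_ne_zero (f := R) h2 (by rw [hdd.deriv]; exact hd)
      rw [h1] at h3
      rw [← h3, hcomp]
      exact hgm _
  -- the other end
  have hΩ' : {z | z ∈ Ω ∧ q z ≠ c1 ∧ g0 z = g z ∧ AnalyticAt ℂ g z} ∈ codiscrete ℂ := by
    have h1 : ∀ᶠ z in codiscrete ℂ, q z - c1 ≠ 0 :=
      mero_ne (f := fun z => q z - c1) (hq.sub (Meromorphic.const c1)) (fun h => hnc ⟨c1, by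
        filter_upwards [h] with z hz
        exact sub_eq_zero.1 hz⟩)
    filter_upwards [hΩ, h1, hgg, mero_an hgm] with z h2 h3 h4 h5
    exact ⟨h2, sub_ne_zero.1 h3, h4, h5⟩
  set Ω' := {z | z ∈ Ω ∧ q z ≠ c1 ∧ g0 z = g z ∧ AnalyticAt ℂ g z} with hΩ'def
  have hqg : ∀ z ∈ Ω', q z = c1 + (g z)⁻¹ := by
    intro z hz
    rw [← hz.2.2.1]
    change q z = c1 + ((q z - c1)⁻¹)⁻¹
    rw [inv_inv]
    ring
  have hgnz : ∀ z ∈ Ω', g z ≠ 0 := by
    intro z hz h0
    have h1 := hz.2.2.1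
    rw [h0] at h1
    exact hz.2.1 (sub_eq_zero.1 (inv_eq_zero.1 h1))
  have hgnc : NC g := by
    rintro ⟨c, hc⟩
    refine hnc ⟨c1 + c⁻¹, ?_⟩
    filter_upwards [hc, hΩ'] with z h1 h2
    rw [hqg z h2, h1]
  obtain ⟨n2, c2, ε2, hε2, hgap2⟩ := baire_gap (q := g)
    (V := fun n : ℕ => Ω' ∩ {z | z.im < -(n : ℝ)})
    (fun n => (codis_open hΩ').inter (isOpen_lt Complex.continuous_im continuous_const))
    (fun n z hz => hz.1.2.2.2) (fun n z _ => hgnc.local hgm z)
    (E := {0} ∪ (fun c => (c - c1)⁻¹) '' E) ((finite_singleton 0).union (hE.image _)) (by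
      intro c hc
      have hc0 : c ≠ 0 := fun h => hc (Or.inl h)
      obtain ⟨T, hT, hTz⟩ := hfib (c1 + c⁻¹) (fun h => hc (Or.inr ⟨_, h, by
        change (c1 + c⁻¹ - c1)⁻¹ = c
        rw [add_sub_cancel_left, inv_inv]⟩))
      obtain ⟨M, hM⟩ := (hT.image Complex.im).bddBelow
      obtain ⟨n, hn⟩ := exists_nat_ge (-M)
      refine ⟨n, fun z hz hzc => ?_⟩
      obtain ⟨t, ht, hzt⟩ := hTz z hz.1.1 (by rw [hqg z hz.1, hzc])
      have h1 := hM ⟨t, ht, rfl⟩
      have h2 : z.im < -(n : ℝ) := hz.2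
      linarith)
  obtain ⟨A, B, hB, hAB⟩ := rat_of_gap hRm (r := Real.exp (2 * Real.pi * n2)) (c := c2) hε2 (by
    filter_upwards [mero_an hRm] with t ht hr
    have ht0 : t ≠ 0 := by
      rintro rfl
      rw [norm_zero] at hr
      exact absurd hr (not_lt.2 (Real.exp_pos _).le)
    have h1 : qParam 1 (invQParam 1 t) = t := qParam_right_inv one_ne_zero ht0
    set z := invQParam 1 t with hz
    have him : z.im < -(n2 : ℝ) := by
      rw [hz, im_invQParam]
      have h2 : 2 * Real.pi * n2 < Real.log ‖t‖ := by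
        rw [Real.lt_log_iff_exp_lt (norm_pos_iff.2 ht0)]
        exact hr
      have h3 : 0 < 2 * Real.pi := by positivity
      have h4 : -1 / (2 * Real.pi) * Real.log ‖t‖ = -(Real.log ‖t‖ / (2 * Real.pi)) := by ring
      rw [h4]
      apply neg_lt_neg
      rw [lt_div_iff₀ h3]
      linarith
    have h2 : AnalyticAt ℂ g z := by
      rw [← hcomp]
      apply AnalyticAt.comp
      · rw [h1]; exact ht
      · exact differentiable_qParam.analyticAt _
    have h3 : Tendsto (fun y => ‖g y - c2‖) (𝓝[≠] z) (𝓝 ‖g z - c2‖) :=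
      ((h2.continuousAt.sub continuousAt_const).norm.tendsto).mono_left nhdsWithin_le_nhds
    have h4 : ∀ᶠ y in 𝓝[≠] z, ε2 ≤ ‖g y - c2‖ := by
      have h5 : ∀ᶠ y in 𝓝[≠] z, y.im < -(n2 : ℝ) :=
        nhdsWithin_le_nhds ((isOpen_lt Complex.continuous_im continuous_const).mem_nhds him)
      filter_upwards [codis_punct hΩ' z, h5] with y h6 h7
      exact hgap2 y ⟨h6, h7⟩
    have h5 := ge_of_tendsto h3 h4
    rw [← hRg z, h1] at h5
    exact h5)
  have hAB' := pull_codis qp_deriv hAB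
  have hA : A ≠ 0 := by
    rintro rfl
    apply hgnc
    refine ⟨0, ?_⟩
    filter_upwards [hAB', pull_codis qp_deriv (poly_codis hB)] with z h2 h3
    rw [hRg, Polynomial.eval_zero] at h2
    exact (mul_eq_zero.1 h2).resolve_left h3
  refine ⟨B + Polynomial.C c1 * A, A, hA, ?_⟩
  filter_upwards [hAB', hΩ'] with z h1 h2
  rw [hRg] at h1
  rw [hqg z h2, Polynomial.eval_add, Polynomial.eval_mul, Polynomial.eval_C, ← h1]
  have h3 := hgnz z h2
  field_simp
  ring

theorem scale_deriv {a : ℂ} (ha : a ≠ 0) (z : ℂ) :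
    ∃ d, d ≠ 0 ∧ HasDerivAt (fun z => a * z) d z :=
  ⟨a, ha, by simpa using (hasDerivAt_id z).const_mul a⟩

theorem case_one {q : ℂ → ℂ} (hq : Meromorphic q) (hnc : NC q) {Ω : Set ℂ}
    (hΩ : Ω ∈ codiscrete ℂ) (han : ∀ z ∈ Ω, AnalyticAt ℂ q z) {a : ℂ} (ha : a ≠ 0)
    (hper : ∀ᶠ z in codiscrete ℂ, q (z + a) = q z) {E : Set ℂ} (hE : E.Finite)
    (hfib : ∀ c ∉ E, ∃ T : Set ℂ, T.Finite ∧ ∀ z ∈ Ω, q z = c → ∃ t ∈ T, ∃ k : ℤ,
      z - t = k * a) :
    ∃ A B : Polynomial ℂ, B ≠ 0 ∧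
      ∀ᶠ z in codiscrete ℂ, B.eval (qParam 1 (a⁻¹ * z)) * q z = A.eval (qParam 1 (a⁻¹ * z)) := by
  have hm : Meromorphic (fun z => q (a * z)) := fun z =>
    (hq (a * z)).comp_analyticAt (g := fun z => a * z) (analyticAt_const.mul analyticAt_id)
  have hi : ∀ z, a * (a⁻¹ * z) = z := fun z => by rw [← mul_assoc, mul_inv_cancel₀ ha, one_mul]
  have hi' : ∀ z, a⁻¹ * (a * z) = z := fun z => by rw [← mul_assoc, inv_mul_cancel₀ ha, one_mul]
  obtain ⟨A, B, hB, h⟩ := case_one1 (q := fun z => q (a * z)) hm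
    (by
      rintro ⟨c, hc⟩
      refine hnc ⟨c, ?_⟩
      have h1 := pull_codis (scale_deriv (inv_ne_zero ha)) hc
      filter_upwards [h1] with z hz
      rwa [hi] at hz)
    (Ω := {z | a * z ∈ Ω}) (pull_codis (scale_deriv ha) hΩ)
    (fun z hz => (han _ hz).fun_comp (f := fun z => a * z) (analyticAt_const.mul analyticAt_id))
    (by
      have h1 := pull_codis (scale_deriv ha) hper
      filter_upwards [h1] with z hz
      rw [mul_add, mul_one]
      exact hz) hE (by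
      intro c hc
      obtain ⟨T, hT, hTz⟩ := hfib c hc
      refine ⟨(fun t => a⁻¹ * t) '' T, hT.image _, fun z hz hzc => ?_⟩
      obtain ⟨t, ht, k, hk⟩ := hTz (a * z) hz hzc
      refine ⟨a⁻¹ * t, ⟨t, ht, rfl⟩, ?_⟩
      have h1 : z = a⁻¹ * t + k := by
        rw [← hi' z, sub_eq_iff_eq_add.1 hk]
        field_simp
        ring
      rw [h1]
      simp)
  refine ⟨A, B, hB, ?_⟩
  have h1 := pull_codis (scale_deriv (inv_ne_zero ha)) h
  filter_upwards [h1] with z hz
  rwa [hi] at hz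

/-- the periods of a nonconstant function on a line are not dense -/
theorem not_dense {q : ℂ → ℂ} (hq : Meromorphic q) (hnc : NC q) {a : ℂ} (ha : a ≠ 0)
    {S : Set ℝ} (hS : ∀ x ∈ S, ∀ᶠ z in codiscrete ℂ, q (z + x * a) = q z) : ¬ Dense S := by
  intro hd
  obtain ⟨z0, hz0⟩ := (mero_an hq).exists
  apply hnc.local hq z0
  have hΩ : ∀ᶠ z in codiscrete ℂ, AnalyticAt ℂ q z := mero_an hq
  have hf : ∃ᶠ t in 𝓝[≠] z0, q t = q z0 := by
    intro hcon
    rw [eventually_nhdsWithin_iff] at hcon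
    have h1 := hcon.and hz0.eventually_analyticAt
    obtain ⟨δ, hδ, hball⟩ := Metric.eventually_nhds_iff.1 h1
    have han : 0 < ‖a‖ := norm_pos_iff.2 ha
    obtain ⟨x, hxS, hx⟩ := hd.exists_mem_open (isOpen_Ioo (a := (0 : ℝ)) (b := δ / ‖a‖))
      (nonempty_Ioo.2 (div_pos hδ han))
    have hx0 : 0 < x := hx.1
    have hxa : dist (z0 + x * a) z0 < δ := by
      rw [dist_eq_norm, add_sub_cancel_left, norm_mul, Complex.norm_real, Real.norm_eq_abs,
        abs_of_pos hx0]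
      exact (lt_div_iff₀ han).1 hx.2
    obtain ⟨h2, h3⟩ := hball hxa
    refine h2 ?_ ?_
    · intro h4
      have h5 : (x : ℂ) * a = 0 := by
        have h6 : z0 + x * a = z0 := h4
        exact add_eq_left.1 h6
      rcases mul_eq_zero.1 h5 with h6 | h6
      · rw [Complex.ofReal_eq_zero] at h6
        exact hx0.ne' h6
      · exact ha h6
    · refine eq_of_codis (f := fun z => q (z + x * a)) (g := q) (hS x hxS) ?_ hz0.continuousAt
      exact h3.continuousAt.comp (f := fun z => z + x * a)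
        (continuousAt_id.add continuousAt_const)
  have h2 : AnalyticAt ℂ (fun t => q t - q z0) z0 := hz0.sub analyticAt_const
  have h3 := h2.frequently_zero_iff_eventually_zero.1 (hf.mono fun t ht => sub_eq_zero.2 ht)
  filter_upwards [h3] with t ht
  exact sub_eq_zero.1 ht

end Pool.Agent.TH143.EL
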