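import Pool.Agent.TH143.EL.Alg

/-!
Autonomous algebraic differential equations: values determine germs, and fibres are finite up to
periods.
-/

set_option autoImplicit false

namespace Pool.Agent.TH143.EL

open Filter Topology Set MvPolynomial

section ode

variable {σ : Type} [Fintype σ] {w : σ → ℂ → ℂ} {s : MvPolynomial σ ℂ} {R : σ → MvPolynomial σ ℂ}
  {Ω : Set ℂ}

/-- `w` solves an algebraic differential equation on the open set `Ω` -/
structure Ode (w : σ → ℂ → ℂ) (s : MvPolynomial σ ℂ) (R : σ → MvPolynomial σ ℂ) (Ω : Set ℂ) :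
    Prop where
  op : IsOpen Ω
  an : ∀ z ∈ Ω, ∀ j, AnalyticAt ℂ (w j) z
  ne : ∀ z ∈ Ω, eval (fun j => w j z) s ≠ 0
  eq : ∀ z ∈ Ω, ∀ j, eval (fun j => w j z) s * deriv (w j) z = eval (fun j => w j z) (R j)

theorem Ode.deriv_eval (h : Ode w s R Ω) {z : ℂ} (hz : z ∈ Ω) (T : MvPolynomial σ ℂ) :
    ∃ d, HasDerivAt (fun z => eval (fun j => w j z) T) d z ∧
      eval (fun j => w j z) s * d = eval (fun j => w j z) (mkDerivation ℂ R T) := by
  induction T using MvPolynomial.induction_on with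
  | C a =>
    refine ⟨0, ?_, ?_⟩
    · simpa using hasDerivAt_const z a
    · have h0 : mkDerivation ℂ R (C a) = 0 := (mkDerivation ℂ R).map_algebraMap a
      rw [h0, mul_zero, map_zero]
  | add p q hp hq =>
    obtain ⟨d, h1, h2⟩ := hp
    obtain ⟨e, h3, h4⟩ := hq
    refine ⟨d + e, ?_, ?_⟩
    · simp only [map_add]
      exact h1.add h3
    · rw [map_add, map_add, ← h2, ← h4, mul_add]
  | mul_X p j hp =>
    obtain ⟨d, h1, h2⟩ := hp
    refine ⟨d * w j z + eval (fun j => w j z) p * deriv (w j) z, ?_, ?_⟩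
    · simp only [map_mul, eval_X]
      exact h1.mul (h.an z hz j).differentiableAt.hasDerivAt
    · rw [Derivation.leibniz, mkDerivation_X, smul_eq_mul, smul_eq_mul, map_add, map_mul, map_mul,
        ← h2, ← h.eq z hz j, eval_X]
      ring

theorem Ode.step (h : Ode w s R Ω) {g : ℂ → ℂ} (hg : ∀ z ∈ Ω, AnalyticAt ℂ g z) {e : ℕ}
    {T : MvPolynomial σ ℂ}
    (hT : ∀ z ∈ Ω, eval (fun j => w j z) s ^ e * g z = eval (fun j => w j z) T) :
    ∃ T' : MvPolynomial σ ℂ, ∀ z ∈ Ω, eval (fun j => w j z) s ^ (e + 2) * deriv g z =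
      eval (fun j => w j z) T' := by
  refine ⟨s * mkDerivation ℂ R T - (e : MvPolynomial σ ℂ) * (mkDerivation ℂ R s * T),
    fun z hz => ?_⟩
  obtain ⟨d, h1, h2⟩ := h.deriv_eval hz T
  obtain ⟨d', h3, h4⟩ := h.deriv_eval hz s
  have h5 : HasDerivAt (fun z => eval (fun j => w j z) s ^ e * g z) d z := by
    apply h1.congr_of_eventuallyEq
    filter_upwards [h.op.mem_nhds hz] with y hy
    exact hT y hy
  have h6 := (h3.fun_pow e).fun_mul (hg z hz).differentiableAt.hasDerivAt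
  have h7 := h5.unique h6
  rw [map_sub, map_mul, map_mul, map_mul, map_natCast, ← h2, ← h4, ← hT z hz, h7]
  cases e with
  | zero => simp; ring
  | succ e =>
    rw [Nat.add_sub_cancel]
    ring

theorem Ode.iter (h : Ode w s R Ω) (j : σ) (k : ℕ) : ∃ (e : ℕ) (T : MvPolynomial σ ℂ),
    ∀ z ∈ Ω, eval (fun j => w j z) s ^ e * iteratedDeriv k (w j) z = eval (fun j => w j z) T := by
  induction k with
  | zero => exact ⟨0, X j, fun z _ => by simp⟩
  | succ k ih =>
    obtain ⟨e, T, hT⟩ := ih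
    obtain ⟨T', hT'⟩ := h.step (g := iteratedDeriv k (w j)) (fun z hz =>
      by rw [iteratedDeriv_eq_iterate]; exact (h.an z hz j).iterated_deriv k) hT
    refine ⟨e + 2, T', fun z hz => ?_⟩
    rw [iteratedDeriv_succ]
    exact hT' z hz

theorem Ode.unique (h : Ode w s R Ω) {z1 z2 : ℂ} (h1 : z1 ∈ Ω) (h2 : z2 ∈ Ω)
    (he : ∀ j, w j z1 = w j z2) (j : σ) : ∀ᶠ t in 𝓝 (0 : ℂ), w j (z1 + t) = w j (z2 + t) := by
  have hk : ∀ k, iteratedDeriv k (w j) z1 = iteratedDeriv k (w j) z2 := by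
    intro k
    obtain ⟨e, T, hT⟩ := h.iter j k
    have h3 := hT z1 h1
    have h4 := hT z2 h2
    have h5 : (fun j => w j z1) = fun j => w j z2 := funext he
    rw [h5, ← h4] at h3
    exact mul_left_cancel₀ (pow_ne_zero _ (h.ne z2 h2)) h3
  have h3 := (h.an z1 h1 j).hasFPowerSeriesAt
  have h4 := (h.an z2 h2 j).hasFPowerSeriesAt
  have h5 : (fun n => iteratedDeriv n (w j) z1 / (n.factorial : ℂ)) =
      fun n => iteratedDeriv n (w j) z2 / (n.factorial : ℂ) := funext fun n => by rw [hk]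
  rw [h5] at h3
  filter_upwards [h3.eventually_hasSum, h4.eventually_hasSum] with t ht1 ht2
  exact ht1.unique ht2

end ode

/-- the group of common periods -/
def Pd {σ : Type} (w : σ → ℂ → ℂ) : AddSubgroup ℂ where
  carrier := {a | ∀ j, ∀ᶠ z in codiscrete ℂ, w j (z + a) = w j z}
  add_mem' := by
    intro a b ha hb j
    filter_upwards [codis_shift a (hb j), ha j] with z h1 h2
    rw [← add_assoc, h1, h2]
  zero_mem' := fun j => Eventually.of_forall fun z => by rw [add_zero]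
  neg_mem' := by
    intro a ha j
    filter_upwards [codis_shift (-a) (ha j)] with z h1
    rw [neg_add_cancel_right] at h1
    exact h1.symm

theorem mem_Pd {σ : Type} {w : σ → ℂ → ℂ} {a : ℂ} :
    a ∈ Pd w ↔ ∀ j, ∀ᶠ z in codiscrete ℂ, w j (z + a) = w j z := Iff.rfl

theorem Ode.period {σ : Type} [Fintype σ] {w : σ → ℂ → ℂ} {s : MvPolynomial σ ℂ}
    {R : σ → MvPolynomial σ ℂ} {Ω : Set ℂ} (h : Ode w s R Ω) (hw : ∀ j, Meromorphic (w j))
    {z1 z2 : ℂ} (h1 : z1 ∈ Ω) (h2 : z2 ∈ Ω) (he : ∀ j, w j z1 = w j z2) : z1 - z2 ∈ Pd w := by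
  rw [mem_Pd]
  intro j
  have h3 := h.unique h1 h2 he j
  apply mero_id2 (mero_comp_add (hw j) _) (hw j) (x := z2)
  apply freq_of_ev
  have h4 : Tendsto (fun z : ℂ => z - z2) (𝓝 z2) (𝓝 0) := by
    have : Tendsto (fun z : ℂ => z - z2) (𝓝 z2) (𝓝 (z2 - z2)) :=
      (continuous_id.sub (continuous_const (y := z2))).tendsto z2
    rwa [sub_self] at this
  filter_upwards [h4.eventually h3] with z hz
  have h5 : z + (z1 - z2) = z1 + (z - z2) := by ring
  have h6 : z2 + (z - z2) = z := by ring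
  rw [h5, hz, h6]

theorem ev2_eval (c y : ℂ) (P : Polynomial (Polynomial ℂ)) :
    ev2 c y P = (P.map (Polynomial.evalRingHom c)).eval y := by
  unfold ev2
  rw [Polynomial.coe_eval₂RingHom, Polynomial.eval_map]
  congr 1

theorem exc_finite {P : Polynomial (Polynomial ℂ)} (hP : P ≠ 0) :
    {c : ℂ | P.map (Polynomial.evalRingHom c) = 0}.Finite := by
  obtain ⟨n, hn⟩ : ∃ n, P.coeff n ≠ 0 := by
    by_contra hcon
    push Not at hcon
    exact hP (Polynomial.ext fun n => by rw [hcon n, Polynomial.coeff_zero])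
  apply (P.coeff n).roots.toFinset.finite_toSet.subset
  intro c hc
  rw [Finset.mem_coe, Multiset.mem_toFinset, Polynomial.mem_roots hn, Polynomial.IsRoot]
  have h1 := congrArg (fun p => Polynomial.coeff p n) (hc : P.map (Polynomial.evalRingHom c) = 0)
  simpa using h1

theorem Ode.fibre {σ : Type} [Fintype σ] {w : σ → ℂ → ℂ} {s : MvPolynomial σ ℂ}
    {R : σ → MvPolynomial σ ℂ} {Ω : Set ℂ} (h : Ode w s R Ω) (hw : ∀ j, Meromorphic (w j))
    {j0 : σ} (hP : ∀ i, ∃ P : Polynomial (Polynomial ℂ), P ≠ 0 ∧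
      ∀ z ∈ Ω, ev2 (w j0 z) (w i z) P = 0) :
    ∃ E : Set ℂ, E.Finite ∧ ∀ c ∉ E, ∃ T : Set ℂ, T.Finite ∧ ∀ z ∈ Ω, w j0 z = c →
      ∃ t ∈ T, z - t ∈ Pd w := by
  classical
  choose P hP0 hP using hP
  refine ⟨⋃ i, {c : ℂ | (P i).map (Polynomial.evalRingHom c) = 0},
    Set.finite_iUnion fun i => exc_finite (hP0 i), fun c hc => ?_⟩
  have hc' : ∀ i, (P i).map (Polynomial.evalRingHom c) ≠ 0 := by
    intro i h0
    exact hc (Set.mem_iUnion.2 ⟨i, h0⟩)
  let V : Set (σ → ℂ) := (fun z j => w j z) '' {z | z ∈ Ω ∧ w j0 z = c}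
  have hV : V.Finite := by
    apply (Set.Finite.pi (t := fun i => {y : ℂ | ((P i).map (Polynomial.evalRingHom c)).eval y = 0})
      fun i => ?_).subset
    · rintro _ ⟨z, ⟨hz, hzc⟩, rfl⟩
      rw [Set.mem_pi]
      intro i _
      change ((P i).map (Polynomial.evalRingHom c)).eval (w i z) = 0
      rw [← ev2_eval, ← hzc]
      exact hP i z hz
    · apply ((P i).map (Polynomial.evalRingHom c)).roots.toFinset.finite_toSet.subset
      intro y hy
      rw [Finset.mem_coe, Multiset.mem_toFinset, Polynomial.mem_roots (hc' i)]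
      exact hy
  have hch : ∀ v : V, ∃ z, (z ∈ Ω ∧ w j0 z = c) ∧ (fun j => w j z) = v.1 := fun v => v.2
  choose t ht htv using hch
  have hVf : Finite V := hV
  refine ⟨Set.range t, Set.finite_range t, fun z hz hzc => ?_⟩
  let v : V := ⟨fun j => w j z, z, ⟨hz, hzc⟩, rfl⟩
  refine ⟨t v, ⟨v, rfl⟩, ?_⟩
  apply h.period hw hz (ht v).1
  intro j
  exact (congrFun (htv v) j).symm

end Pool.Agent.TH143.EL
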