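import Pool.Agent.TH143.EL.Cls
import Pool.Agent.TH143.EL.Per

/-!
Classification of the solutions of autonomous algebraic differential equations of transcendence
degree one.
-/

set_option autoImplicit false

namespace Pool.Agent.TH143.EL

open Filter Topology Set Function.Periodic MvPolynomial

theorem qp_scale_deriv {a : ℂ} (ha : a ≠ 0) (z : ℂ) :
    ∃ d, d ≠ 0 ∧ HasDerivAt (fun z => qParam 1 (a⁻¹ * z)) d z := by
  obtain ⟨d, hd, h1⟩ := qp_deriv (a⁻¹ * z)
  obtain ⟨e, he, h2⟩ := scale_deriv (inv_ne_zero ha) z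
  exact ⟨d * e, mul_ne_zero hd he, h1.comp z h2⟩

theorem classify {σ : Type} [Fintype σ] {w : σ → ℂ → ℂ} {s : MvPolynomial σ ℂ}
    {R : σ → MvPolynomial σ ℂ} {Ω : Set ℂ} (h : Ode w s R Ω) (hΩ : Ω ∈ codiscrete ℂ)
    (hw : ∀ j, Meromorphic (w j)) (hP : ∀ j, NC (w j) → ∀ i, ∃ P : Polynomial (Polynomial ℂ),
      P ≠ 0 ∧ ∀ z ∈ Ω, ev2 (w j z) (w i z) P = 0) (hne : ∃ j, NC (w j)) :
    (∃ ω₁ ω₂, ω₁ ∈ Pd w ∧ ω₂ ∈ Pd w ∧ LinearIndependent ℝ ![ω₁, ω₂]) ∨
    ∃ φ : ℂ → ℂ, (∀ z, ∃ d, d ≠ 0 ∧ HasDerivAt φ d z) ∧ ∀ j, ∃ A B : Polynomial ℂ, B ≠ 0 ∧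
      ∀ᶠ z in codiscrete ℂ, B.eval (φ z) * w j z = A.eval (φ z) := by
  by_cases h2 : ∃ ω₁ ω₂, ω₁ ∈ Pd w ∧ ω₂ ∈ Pd w ∧ LinearIndependent ℝ ![ω₁, ω₂]
  · exact Or.inl h2
  right
  push Not at h2
  have hconst : ∀ (φ : ℂ → ℂ) (j : σ), ¬ NC (w j) → ∃ A B : Polynomial ℂ, B ≠ 0 ∧
      ∀ᶠ z in codiscrete ℂ, B.eval (φ z) * w j z = A.eval (φ z) := by
    intro φ j hj
    unfold NC at hj
    rw [not_not] at hj
    obtain ⟨c, hc⟩ := hj
    refine ⟨Polynomial.C c, 1, one_ne_zero, ?_⟩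
    filter_upwards [hc] with z hz
    rw [Polynomial.eval_one, one_mul, Polynomial.eval_C, hz]
  by_cases hG : ∃ a ∈ Pd w, a ≠ 0
  · obtain ⟨a, haG, ha⟩ := hG
    let S : AddSubgroup ℝ :=
      { carrier := {x | (x : ℂ) * a ∈ Pd w}
        add_mem' := by
          intro x y hx hy
          change ((x + y : ℝ) : ℂ) * a ∈ Pd w
          rw [Complex.ofReal_add, add_mul]
          exact (Pd w).add_mem hx hy
        zero_mem' := by
          change ((0 : ℝ) : ℂ) * a ∈ Pd w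
          rw [Complex.ofReal_zero, zero_mul]
          exact (Pd w).zero_mem
        neg_mem' := by
          intro x hx
          change ((-x : ℝ) : ℂ) * a ∈ Pd w
          rw [Complex.ofReal_neg, neg_mul]
          exact (Pd w).neg_mem hx }
    have hS : ∀ x, x ∈ S ↔ (x : ℂ) * a ∈ Pd w := fun x => Iff.rfl
    obtain ⟨j1, hj1⟩ := hne
    have hnd : ¬ Dense (S : Set ℝ) := not_dense (hw j1) hj1 ha fun x hx => (hS x).1 hx j1
    obtain ⟨b, hb⟩ := (AddSubgroup.dense_or_cyclic S).resolve_left hnd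
    have hb' : ∀ x, x ∈ S ↔ ∃ k : ℤ, k • b = x := by
      intro x
      rw [hb, AddSubgroup.mem_closure_singleton]
    have h1 : (1 : ℝ) ∈ S := by
      rw [hS, Complex.ofReal_one, one_mul]
      exact haG
    have hb0 : b ≠ 0 := by
      rintro rfl
      obtain ⟨k, hk⟩ := (hb' 1).1 h1
      rw [smul_zero] at hk
      exact zero_ne_one hk
    have hbS : b ∈ S := (hb' b).2 ⟨1, one_smul _ _⟩
    set a' : ℂ := (b : ℂ) * a with ha'
    have ha'0 : a' ≠ 0 := mul_ne_zero (Complex.ofReal_ne_zero.2 hb0) ha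
    have hall : ∀ ω ∈ Pd w, ∃ k : ℤ, ω = k * a' := by
      intro ω hω
      have h3 := h2 a ω haG hω
      rw [LinearIndependent.pair_iff] at h3
      push Not at h3
      obtain ⟨x, y, hxy, hne⟩ := h3
      have hy : y ≠ 0 := by
        rintro rfl
        by_cases hx : x = 0
        · exact hne hx rfl
        · rw [zero_smul, add_zero] at hxy
          rcases smul_eq_zero.1 hxy with h4 | h4
          · exact hx h4
          · exact ha h4
      have h4 : ω = ((-(x / y) : ℝ) : ℂ) * a := by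
        rw [Complex.real_smul, Complex.real_smul] at hxy
        have hyc : (y : ℂ) ≠ 0 := Complex.ofReal_ne_zero.2 hy
        rw [Complex.ofReal_neg, Complex.ofReal_div]
        field_simp
        linear_combination hxy
      have h5 : -(x / y) ∈ S := by
        rw [hS, ← h4]
        exact hω
      obtain ⟨k, hk⟩ := (hb' _).1 h5
      refine ⟨k, ?_⟩
      rw [h4, ← hk, ha', zsmul_eq_mul, Complex.ofReal_mul, Complex.ofReal_intCast]
      ring
    refine ⟨fun z => qParam 1 (a'⁻¹ * z), qp_scale_deriv ha'0, fun j => ?_⟩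
    by_cases hj : NC (w j)
    · obtain ⟨E, hE, hfib⟩ := h.fibre hw (hP j hj)
      refine case_one (hw j) hj hΩ (fun z hz => h.an z hz j) ha'0 ((hS b).1 hbS j) hE ?_
      intro c hc
      obtain ⟨T, hT, hTz⟩ := hfib c hc
      refine ⟨T, hT, fun z hz hzc => ?_⟩
      obtain ⟨t, ht, hzt⟩ := hTz z hz hzc
      exact ⟨t, ht, hall _ hzt⟩
    · exact hconst _ j hj
  · push Not at hG
    refine ⟨fun z => z, fun z => ⟨1, one_ne_zero, hasDerivAt_id z⟩, fun j => ?_⟩
    by_cases hj : NC (w j)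
    · obtain ⟨E, hE, hfib⟩ := h.fibre hw (hP j hj)
      refine case_zero (hw j) hj hΩ (fun z hz => h.an z hz j) hE ?_
      intro c hc
      obtain ⟨T, hT, hTz⟩ := hfib c hc
      refine ⟨T, hT, fun z hz hzc => ?_⟩
      obtain ⟨t, ht, hzt⟩ := hTz z hz hzc
      have h3 := hG _ hzt
      rwa [sub_eq_zero.1 h3]
    · exact hconst _ j hj

end Pool.Agent.TH143.EL
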