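import Pool.Agent.TH143.EL.Wp
import Pool.Agent.TH143.EL.Cls2
import Pool.Agent.TH143.GT.GenB

/-!
Entire curves given by linear differential equations over a differential ring of meromorphic
functions of transcendence degree at most one.
-/

set_option autoImplicit false

namespace Pool.Agent.TH143.EL

open Filter Topology Set MvPolynomial
open scoped LinearAlgebra.Projectivization
open Pool.Agent.TH143.HE (RatCurvesIn IsPtP NonConst RCur)
open Pool.Agent.TH143 (DiffRing LinOver AlgOver)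

variable {N : ℕ}

/-- A ring of meromorphic functions on the plane, stable under differentiation, of transcendence
degree at most one over the constants. -/
structure TrOne (B : Subalgebra ℂ (ℂ → ℂ)) : Prop where
  mero : ∀ b ∈ B, Meromorphic b
  der : ∀ b ∈ B, deriv b ∈ B
  dep : ∀ b ∈ B, ∀ c ∈ B, ∃ P : MvPolynomial (Fin 2) ℂ, P ≠ 0 ∧
    ∀ᶠ z in codiscrete ℂ, eval ![b z, c z] P = 0

/-- The function `h` satisfies a nontrivial linear differential equation with coefficients in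
`B`. -/
def LinB (B : Subalgebra ℂ (ℂ → ℂ)) (h : ℂ → ℂ) : Prop :=
  ∃ (m : ℕ) (a : ℕ → ℂ → ℂ), (∀ k, a k ∈ B) ∧ (∃ k ≤ m, ¬ ∀ᶠ z in codiscrete ℂ, a k z = 0) ∧
    ∀ᶠ z in codiscrete ℂ, ∑ k ∈ Finset.range (m + 1), a k z * iteratedDeriv k h z = 0

/-- the elements of `B` analytic on `Ω` -/
def BOn (B : Subalgebra ℂ (ℂ → ℂ)) (Ω : Set ℂ) : Subalgebra ℂ (ℂ → ℂ) where
  carrier := {b | b ∈ B ∧ AnalyticOnNhd ℂ b Ω}
  mul_mem' := fun ha hb => ⟨B.mul_mem ha.1 hb.1, ha.2.mul hb.2⟩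
  add_mem' := fun ha hb => ⟨B.add_mem ha.1 hb.1, ha.2.add hb.2⟩
  algebraMap_mem' := fun c => ⟨B.algebraMap_mem c, analyticOnNhd_const⟩

theorem mem_BOn {B : Subalgebra ℂ (ℂ → ℂ)} {Ω : Set ℂ} {b : ℂ → ℂ} :
    b ∈ BOn B Ω ↔ b ∈ B ∧ AnalyticOnNhd ℂ b Ω := Iff.rfl

theorem diffRing_BOn {B : Subalgebra ℂ (ℂ → ℂ)} (hB : TrOne B) (Ω : Set ℂ) :
    DiffRing Ω (BOn B Ω) where
  an := fun b hb => hb.2
  der := fun b hb => ⟨deriv b, ⟨hB.der b hb.1, hb.2.deriv⟩, fun z hz =>
    (hb.2 z hz).differentiableAt.hasDerivAt⟩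

/-- the classes of the elements of `B` -/
def BCl {B : Subalgebra ℂ (ℂ → ℂ)} (hB : TrOne B) : Subalgebra ℂ MK where
  carrier := {x | ∃ (b : ℂ → ℂ) (hb : b ∈ B), x = cl b (hB.mero b hb)}
  mul_mem' := by
    rintro _ _ ⟨b, hb, rfl⟩ ⟨c, hc, rfl⟩
    exact ⟨b * c, B.mul_mem hb hc, rfl⟩
  add_mem' := by
    rintro _ _ ⟨b, hb, rfl⟩ ⟨c, hc, rfl⟩
    exact ⟨b + c, B.add_mem hb hc, rfl⟩
  algebraMap_mem' := fun c => ⟨_, B.algebraMap_mem c, rfl⟩

theorem BCl_MD {B : Subalgebra ℂ (ℂ → ℂ)} (hB : TrOne B) : ∀ x ∈ BCl hB, MD x ∈ BCl hB := by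
  rintro _ ⟨b, hb, rfl⟩
  rw [MD_cl]
  exact ⟨deriv b, hB.der b hb, rfl⟩

theorem BCl_dep {B : Subalgebra ℂ (ℂ → ℂ)} (hB : TrOne B) :
    ∀ x ∈ BCl hB, ∀ y ∈ BCl hB, ¬ AlgebraicIndependent ℂ ![x, y] := by
  rintro _ ⟨b, hb, rfl⟩ _ ⟨c, hc, rfl⟩ hind
  obtain ⟨P, hP0, hP⟩ := hB.dep b hb c hc
  apply hP0
  have h1 := aeval_cl (![b, c]) (fun j => by
    fin_cases j
    · exact hB.mero b hb
    · exact hB.mero c hc) P
  have h2 : (fun j : Fin 2 => cl (![b, c] j) (by
      fin_cases j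
      · exact hB.mero b hb
      · exact hB.mero c hc)) = ![cl b (hB.mero b hb), cl c (hB.mero c hc)] := by
    funext j
    fin_cases j <;> rfl
  rw [h2] at h1
  apply hind
  rw [map_zero]
  rw [h1, cl_eq_zero]
  filter_upwards [hP] with z hz
  have h3 : (fun j : Fin 2 => ![b, c] j z) = ![b z, c z] := by
    funext j
    fin_cases j <;> rfl
  rw [h3]
  exact hz

/-- nonconstant functions are transcendental -/
theorem transc_of_nc {q : ℂ → ℂ} (hq : Meromorphic q) (h : NC q) : Transcendental ℂ (cl q hq) := by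
  rintro ⟨p, hp0, hp⟩
  apply hp0
  apply nc_poly hq h
  have h1 := aeval_cl (σ := Unit) (fun _ => q) (fun _ => hq)
    (Polynomial.aeval (MvPolynomial.X ()) p : MvPolynomial Unit ℂ)
  have h2 : MvPolynomial.aeval (fun _ : Unit => cl q hq)
      (Polynomial.aeval (MvPolynomial.X ()) p : MvPolynomial Unit ℂ) = 0 := by
    rw [← Polynomial.aeval_algHom_apply, MvPolynomial.aeval_X]
    exact hp
  rw [h2] at h1
  have h3 := cl_eq_zero.1 h1.symm
  filter_upwards [h3] with z hz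
  have h4 : eval (fun _ : Unit => q z) (Polynomial.aeval (MvPolynomial.X ()) p :
      MvPolynomial Unit ℂ) = p.eval (q z) := by
    have h5 := Polynomial.hom_eval₂ p (algebraMap ℂ (MvPolynomial Unit ℂ))
      (eval (fun _ : Unit => q z)) (MvPolynomial.X ())
    rw [Polynomial.aeval_def, h5, eval_X]
    have h6 : (eval (fun _ : Unit => q z)).comp (algebraMap ℂ (MvPolynomial Unit ℂ)) =
        RingHom.id ℂ := by
      ext c
      simp
    rw [h6]
    rfl
  rw [← h4]
  exact hz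

/-- a relation over the elements of `B` analytic on `Ω` gives algebraicity -/
theorem alg_of_algOver {B : Subalgebra ℂ (ℂ → ℂ)} (hB : TrOne B) {Ω : Set ℂ}
    (hΩ : Ω ∈ codiscrete ℂ) {g h : ℂ → ℂ} (hg : Meromorphic g) (hh : Meromorphic h)
    (hne : ¬ ∀ᶠ z in codiscrete ℂ, h z = 0) (halg : AlgOver Ω (BOn B Ω) g h) :
    IsAlgebraic (BCl hB) (cl (g / h) (hg.div hh)) := by
  classical
  obtain ⟨m, c, hc, ⟨k0, hk0, z0, hz0, hcz⟩, hrel⟩ := halg
  let p : Polynomial (BCl hB) := ∑ k ∈ Finset.range (m + 1),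
    Polynomial.monomial k ⟨cl (c k) (hB.mero _ (hc k).1), c k, (hc k).1, rfl⟩
  refine ⟨p, ?_, ?_⟩
  · intro h0
    have h1 : p.coeff k0 = ⟨cl (c k0) (hB.mero _ (hc k0).1), c k0, (hc k0).1, rfl⟩ := by
      simp only [p, Polynomial.finsetSum_coeff, Polynomial.coeff_monomial]
      rw [Finset.sum_ite_eq' (Finset.range (m + 1)) k0, if_pos (Finset.mem_range.2 (by omega))]
    rw [h0, Polynomial.coeff_zero] at h1
    have h2 : cl (c k0) (hB.mero _ (hc k0).1) = 0 := (congrArg Subtype.val h1).symm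
    rw [cl_eq_zero] at h2
    have h3 := eq_of_codis (f := c k0) (g := fun _ => 0) h2 ((hc k0).2 z0 hz0).continuousAt
      continuousAt_const
    exact hcz h3
  · have h1 : Polynomial.aeval (cl (g / h) (hg.div hh)) p =
        ∑ k ∈ Finset.range (m + 1), cl (c k) (hB.mero _ (hc k).1) *
          cl (g / h) (hg.div hh) ^ k := by
      simp only [p, map_sum, Polynomial.aeval_monomial]
      rfl
    rw [h1]
    have hcl : ∀ k, Meromorphic (c k) := fun k => hB.mero _ (hc k).1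
    have h2 := aeval_cl (σ := Option (Fin (m + 1)))
      (fun o => o.elim (g / h) fun k => c k) (fun o => by
        cases o with
        | none => exact hg.div hh
        | some k => exact hcl k)
      (∑ k : Fin (m + 1), MvPolynomial.X (some k) * MvPolynomial.X none ^ (k : ℕ))
    simp only [map_sum, map_mul, map_pow, MvPolynomial.aeval_X, Option.elim] at h2
    rw [Finset.sum_range (n := m + 1) (f := fun k => cl (c k) (hcl k) *
      cl (g / h) (hg.div hh) ^ k)]
    refine Eq.trans ?_ (h2.trans ?_)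
    · rfl
    · rw [cl_eq_zero]
      filter_upwards [hΩ, mero_ne hh hne] with z hz hz0
      simp only [map_sum, map_mul, map_pow, eval_X, Option.elim, Pi.div_apply]
      have h3 := hrel z hz
      rw [Finset.sum_range (n := m + 1)] at h3
      have h4 : ∑ x : Fin (m + 1), c x z * (g z / h z) ^ (x : ℕ) =
          (∑ i : Fin (m + 1), c i z * g z ^ (i : ℕ) * h z ^ (m - (i : ℕ))) / h z ^ m := by
        rw [Finset.sum_div]
        refine Finset.sum_congr rfl fun i _ => ?_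
        have h5 : h z ^ m = h z ^ (i : ℕ) * h z ^ (m - (i : ℕ)) := by
          rw [← pow_add, Nat.add_sub_cancel' (by omega)]
        rw [h5, div_pow]
        field_simp
      rw [h4, h3, zero_div]

end Pool.Agent.TH143.EL
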