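import Pool.Agent.TH143.EL.Main

/-!
Entire curves given by linear differential equations over a differential ring of meromorphic
functions of transcendence degree at most one.
-/

set_option autoImplicit false

namespace Pool.Agent.TH143.EL

open Filter Topology Set MvPolynomial
open scoped LinearAlgebra.Projectivization
open Pool.Agent.TH143.HE (RatCurvesIn IsPtP NonConst RCur ratCurvesIn_iff eval₂_smul_homog)
open Pool.Agent.TH143 (DiffRing LinOver AlgOver)

variable {N : ℕ}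

theorem ratCurves_or_alg {I I' : Ideal (MvPolynomial (Fin (N + 1)) ℂ)}
    (hR : RatCurvesIn (RingHom.id ℂ) I I') {B : Subalgebra ℂ (ℂ → ℂ)} (hB : TrOne B)
    {h : Fin (N + 1) → ℂ → ℂ} (hm : ∀ j, Meromorphic (h j)) (hl : ∀ j, LinB B (h j))
    (hI : ∀ᶠ z in codiscrete ℂ, ∀ G ∈ I, (∃ d, G.IsHomogeneous d) → eval (fun j => h j z) G = 0)
    (hI' : ∃ G ∈ I', (∃ d, G.IsHomogeneous d) ∧
      ¬ ∀ᶠ z in codiscrete ℂ, eval (fun j => h j z) G = 0)
    {j0 : Fin (N + 1)} (hj0 : ¬ ∀ᶠ z in codiscrete ℂ, h j0 z = 0) (j : Fin (N + 1)) :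
    ∃ Ω ∈ codiscrete ℂ, AlgOver Ω (BOn B Ω) (h j) (h j0) := by
  classical
  choose m a ha hne heq using hl
  obtain ⟨G', hG', hGh', hG0⟩ := hI'
  let Ω : Set ℂ := {z | (∀ j, AnalyticAt ℂ (h j) z) ∧
    (∀ j, ∀ k ∈ Finset.range (m j + 1), AnalyticAt ℂ (a j k) z) ∧
    (∀ j, ∑ k ∈ Finset.range (m j + 1), a j k z * iteratedDeriv k (h j) z = 0) ∧
    ∀ G ∈ I, (∃ d, G.IsHomogeneous d) → eval (fun j => h j z) G = 0}
  have hΩ : Ω ∈ codiscrete ℂ := by
    have h1 : ∀ᶠ z in codiscrete ℂ, ∀ j, AnalyticAt ℂ (h j) z :=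
      eventually_all.2 fun j => mero_an (hm j)
    have h2 : ∀ᶠ z in codiscrete ℂ, ∀ j, ∀ k ∈ Finset.range (m j + 1),
        AnalyticAt ℂ (a j k) z :=
      eventually_all.2 fun j => (Finset.eventually_all _).2 fun k _ =>
        mero_an (hB.mero _ (ha j k))
    have h3 : ∀ᶠ z in codiscrete ℂ, ∀ j,
        ∑ k ∈ Finset.range (m j + 1), a j k z * iteratedDeriv k (h j) z = 0 :=
      eventually_all.2 heq
    filter_upwards [h1, h2, h3, hI] with z k1 k2 k3 k4
    exact ⟨k1, k2, k3, k4⟩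
  have hΩe : ∀ᶠ z in codiscrete ℂ, z ∈ Ω := hΩ
  have hΩo := codis_open hΩ
  refine ⟨Ω, hΩ, ?_⟩
  by_contra hcon
  have hlin : ∀ j, LinOver Ω (BOn B Ω) (h j) := by
    intro j
    refine ⟨m j, fun k => if k ∈ Finset.range (m j + 1) then a j k else 0, fun k => ?_, ?_,
      fun z hz => ?_⟩
    · by_cases hk : k ∈ Finset.range (m j + 1)
      · simp only [if_pos hk]
        exact ⟨ha j k, fun z hz => hz.2.1 j k hk⟩
      · simp only [if_neg hk]
        exact (BOn B Ω).zero_mem
    · obtain ⟨k, hk, hk0⟩ := hne j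
      obtain ⟨z, hz, hz0⟩ := (hΩe.and (mero_ne (hB.mero _ (ha j k)) hk0)).exists
      refine ⟨k, hk, z, hz, ?_⟩
      simp only [if_pos (Finset.mem_range.2 (Nat.lt_succ_of_le hk))]
      exact hz0
    · rw [← hz.2.2.1 j]
      refine Finset.sum_congr rfl fun k hk => ?_
      simp only [if_pos hk]
  obtain ⟨M, i1, i2, mm, hM, W, hrel, hcc, hwr⟩ := Pool.Agent.TH143.GT.fam_gen hΩo (codis_pre hΩ)
    (diffRing_BOn hB Ω) (fun z j => h j z) (fun j z hz => hz.1 j) hlin (X j0) (X j)
    (isHomogeneous_X _ _) (isHomogeneous_X _ _) (by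
      obtain ⟨z, hz, hz0⟩ := (hΩe.and (mero_ne (hm j0) hj0)).exists
      exact ⟨z, hz, by rw [eval_X]; exact hz0⟩) (by
      simpa only [eval_X] using hcon)
  have hcur : ∀ G : MvPolynomial (Fin (N + 1)) ℂ,
      eval₂ (Polynomial.C.comp ((algebraMap ℂ M).comp (RingHom.id ℂ))) W G =
        (aeval W G : Polynomial M) := by
    intro G
    rw [aeval_def]
    rfl
  have hCur : RCur ((algebraMap ℂ M).comp (RingHom.id ℂ)) I I' W := by
    refine ⟨fun G hG hGf => ?_, ⟨G', hG', hGh', ?_⟩, ?_⟩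
    · rw [hcur, ← hrel G hGf]
      intro z hz
      exact hz.2.2.2 G hG hGf
    · rw [hcur, Ne, ← hrel G' hGh']
      intro h6
      apply hG0
      filter_upwards [hΩ] with z hz
      exact h6 z hz
    · by_contra hcon
      push Not at hcon
      rw [aeval_X, aeval_X] at hwr
      apply hwr
      by_cases hz : W j = 0 ∧ W j0 = 0
      · rw [hz.1, hz.2]; simp
      · -- both are multiples of one of them
        have key : ∀ (p q : Polynomial M), (∀ i i', p.coeff i * q.coeff i' =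
            q.coeff i * p.coeff i') → p ≠ 0 → ∃ c : M, q = Polynomial.C c * p := by
          intro p q hpq hp
          obtain ⟨i, hi⟩ : ∃ i, p.coeff i ≠ 0 := by
            by_contra h0
            push Not at h0
            exact hp (Polynomial.ext fun i => by rw [h0 i, Polynomial.coeff_zero])
          refine ⟨q.coeff i / p.coeff i, ?_⟩
          ext i'
          rw [Polynomial.coeff_C_mul, div_mul_eq_mul_div, eq_div_iff hi]
          rw [mul_comm (q.coeff i'), hpq i i']
        by_cases hp : W j = 0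
        · have hq : W j0 ≠ 0 := fun h0 => hz ⟨hp, h0⟩
          rw [hp]
          simp
        · obtain ⟨c, hc⟩ := key (W j) (W j0) (fun i i' => hcon j j0 i i') hp
          rw [hc, Polynomial.derivative_C_mul]
          ring
  obtain ⟨L, _, _, _, p', hp'⟩ := RCur.spec (RingHom.id ℂ) hCur
  let e : L →ₐ[ℂ] ℂ := IsAlgClosed.lift
  have h8 := hp'.map (e : L →+* ℂ)
  have h9 : (e : L →+* ℂ).comp ((algebraMap ℂ L).comp (RingHom.id ℂ)) = RingHom.id ℂ := by
    ext r
    exact e.commutes r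
  rw [h9] at h8
  exact ratCurvesIn_iff.1 hR _ h8

/-- a tuple of rational functions of one function lies in a rational curve -/
theorem in_of_rat {I I' : Ideal (MvPolynomial (Fin (N + 1)) ℂ)}
    (hR : RatCurvesIn (RingHom.id ℂ) I I') {φ : ℂ → ℂ}
    (hφ : ∀ z, ∃ d, d ≠ 0 ∧ HasDerivAt φ d z) {q : Fin (N + 1) → ℂ → ℂ}
    (hq : ∀ j, ∃ A B : Polynomial ℂ, B ≠ 0 ∧
      ∀ᶠ z in codiscrete ℂ, B.eval (φ z) * q j z = A.eval (φ z))
    (hI : ∀ᶠ z in codiscrete ℂ, ∀ G ∈ I, (∃ d, G.IsHomogeneous d) → eval (fun j => q j z) G = 0)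
    (hnc : ¬ ∀ᶠ z in codiscrete ℂ, ∀ᶠ w in codiscrete ℂ, ∀ j k,
      q j z * q k w = q k z * q j w) :
    ∀ᶠ z in codiscrete ℂ, ∀ G ∈ I', (∃ d, G.IsHomogeneous d) → eval (fun j => q j z) G = 0 := by
  classical
  choose A B hB0 hAB using hq
  have hφd : Differentiable ℂ φ := fun z => by
    obtain ⟨d, _, h⟩ := hφ z
    exact h.differentiableAt
  have hφm : Meromorphic φ := fun z => (hφd.analyticAt z).meromorphicAt
  have hφnc : NC φ := by
    rintro ⟨c, hc⟩
    obtain ⟨z0, hz0⟩ := hc.exists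
    obtain ⟨d, hd, h⟩ := hφ z0
    have h1 : φ =ᶠ[𝓝 z0] fun _ => c := codis_nhds hc hz0
    exact hd (h.unique ((hasDerivAt_const z0 c).congr_of_eventuallyEq h1))
  let D : Polynomial ℂ := ∏ j, B j
  have hD0 : D ≠ 0 := Finset.prod_ne_zero_iff.2 fun j _ => hB0 j
  let p : Fin (N + 1) → Polynomial ℂ := fun j => (∏ i ∈ Finset.univ.erase j, B i) * A j
  have hDz : ∀ᶠ z in codiscrete ℂ, D.eval (φ z) ≠ 0 := pull_codis hφ (poly_codis hD0)
  have hp : ∀ᶠ z in codiscrete ℂ, ∀ j, (p j).eval (φ z) = D.eval (φ z) * q j z := by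
    refine eventually_all.2 fun j => ?_
    filter_upwards [hAB j] with z hz
    have h1 : D = B j * ∏ i ∈ Finset.univ.erase j, B i :=
      (Finset.mul_prod_erase _ _ (Finset.mem_univ j)).symm
    simp only [p]
    rw [h1, Polynomial.eval_mul, Polynomial.eval_mul, ← hz]
    ring
  have hval : ∀ᶠ z in codiscrete ℂ, ∀ G : MvPolynomial (Fin (N + 1)) ℂ, (∃ d, G.IsHomogeneous d) →
      (eval (fun j => (p j).eval (φ z)) G = 0 ↔ eval (fun j => q j z) G = 0) := by
    filter_upwards [hp, hDz] with z h1 h2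
    rintro G ⟨d, hd⟩
    have h3 : (fun j => (p j).eval (φ z)) = fun j => D.eval (φ z) * q j z := funext h1
    rw [h3, eval_smul_homog hd]
    constructor
    · intro h4
      exact (mul_eq_zero.1 h4).resolve_left (pow_ne_zero _ h2)
    · intro h4
      rw [h4, mul_zero]
  have h1 := hR p (fun u G hG hGh => by
    rw [eval₂_id, ← eval_comp_poly]
    have h2 : (aeval p G : Polynomial ℂ) = 0 := by
      apply nc_poly hφm hφnc
      filter_upwards [hI, hval] with z h3 h4
      rw [eval_comp_poly]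
      exact (h4 G hGh).2 (h3 G hG hGh)
    rw [h2, Polynomial.eval_zero]) (by
    by_contra hcon
    unfold NonConst at hcon
    push Not at hcon
    apply hnc
    filter_upwards [hp, hDz] with z h2 h3
    filter_upwards [hp, hDz] with w h4 h5
    intro j k
    have h6 := hcon j k (φ z) (φ w)
    rw [h2, h2, h4, h4] at h6
    have h7 : D.eval (φ z) * D.eval (φ w) ≠ 0 := mul_ne_zero h3 h5
    apply mul_left_cancel₀ h7
    linear_combination h6)
  filter_upwards [hval] with z h2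
  intro G hG hGh
  rw [← h2 G hGh]
  have h3 := h1 (φ z) G hG hGh
  rwa [eval₂_id] at h3

end Pool.Agent.TH143.EL
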