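import Pool.Agent.TH143.EL.Main2

/-!
The main theorem: entire curves given by linear differential equations over a differential ring of
transcendence degree at most one lie in the images of one-dimensional complex tori.
-/

set_option autoImplicit false

namespace Pool.Agent.TH143.EL

open Filter Topology Set MvPolynomial
open scoped LinearAlgebra.Projectivization
open Pool.Agent.TH143.HE (RatCurvesIn)
open Pool.Agent.TH143 (AlgOver)

variable {N : ℕ}

/-- **Dichotomy.** The curve lies in the rational curve locus, or it is doubly periodic. -/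
theorem dichotomy {I I' : Ideal (MvPolynomial (Fin (N + 1)) ℂ)}
    (hR : RatCurvesIn (RingHom.id ℂ) I I')
    {B : Subalgebra ℂ (ℂ → ℂ)} (hB : TrOne B) {f : ℂ → ℙ ℂ (Fin (N + 1) → ℂ)} (hf : HolMap f)
    {h : Fin (N + 1) → ℂ → ℂ} (hm : ∀ j, Meromorphic (h j)) (hl : ∀ j, LinB B (h j))
    (hr : ∀ᶠ z in codiscrete ℂ, Rep (f z) fun j => h j z) (hI : ∀ z, InV I (f z))
    (hnc : ∃ z w, f z ≠ f w) : (∀ z, InV I' (f z)) ∨
      ∃ ω₁ ω₂ : ℂ, LinearIndependent ℝ ![ω₁, ω₂] ∧ (∀ z, f (z + ω₁) = f z) ∧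
        ∀ z, f (z + ω₂) = f z := by
  classical
  by_contra hcon'
  push Not at hcon'
  obtain ⟨⟨z9, hz9⟩, hnper⟩ := hcon'
  have hcon : ¬ ∀ z, InV I' (f z) := fun h0 => hz9 (h0 z9)
  -- a form not vanishing on the curve
  have hG : ∃ G ∈ I', (∃ d, G.IsHomogeneous d) ∧
      ¬ ∀ᶠ z in codiscrete ℂ, eval (fun j => h j z) G = 0 := by
    by_contra h0
    push Not at h0
    apply hcon
    intro z
    obtain ⟨g, hg, hgr⟩ := hf z
    rw [inV_iff hgr.self_of_nhds]
    intro G hG hGh
    have h1 : ContinuousAt (fun z => eval (fun j => g j z) G) z := by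
      have h2 : ∀ P : MvPolynomial (Fin (N + 1)) ℂ,
          ContinuousAt (fun z => eval (fun j => g j z) P) z := by
        intro P
        induction P using MvPolynomial.induction_on with
        | C a => simpa using continuousAt_const
        | add p q hp hq => simp only [map_add]; exact hp.add hq
        | mul_X p j hp => simp only [map_mul, eval_X]; exact hp.mul (hg j).continuousAt
      exact h2 G
    have h2 : (fun z => eval (fun j => g j z) G) =ᶠ[𝓝[≠] z] fun _ => 0 := by
      filter_upwards [codis_ev (h0 G hG hGh) z, codis_ev hr z,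
        hgr.filter_mono nhdsWithin_le_nhds] with y h3 h4 h5
      obtain ⟨d, hd⟩ := hGh
      obtain ⟨h6, h7⟩ := (rep_iff h4).1 h5
      obtain ⟨k, hk⟩ := Function.ne_iff.1 h4.1
      have hk' : h k y ≠ 0 := hk
      have h8 : (fun j => g j y) = fun j => (g k y / h k y) * h j y := by
        funext j
        rw [div_mul_eq_mul_div, eq_div_iff hk']
        linear_combination h7 k j
      rw [h8, eval_smul_homog hd, h3, mul_zero]
    exact ((h1.eventuallyEq_nhds_iff_eventuallyEq_nhdsNE continuousAt_const).1 h2).self_of_nhds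
  have hIh : ∀ᶠ z in codiscrete ℂ, ∀ G ∈ I, (∃ d, G.IsHomogeneous d) →
      eval (fun j => h j z) G = 0 := by
    filter_upwards [hr] with z hz
    exact (inV_iff hz).1 (hI z)
  obtain ⟨j0, hj0⟩ : ∃ j0, ¬ ∀ᶠ z in codiscrete ℂ, h j0 z = 0 := by
    by_contra h0
    push Not at h0
    obtain ⟨z, hz1, hz2⟩ := ((eventually_all.2 h0).and hr).exists
    exact hz2.1 (funext hz1)
  have halg := ratCurves_or_alg hR hB hm hl hIh hG hj0
  -- the quotients
  have hh0 := mero_ne (hm j0) hj0
  let q : Fin (N + 1) → ℂ → ℂ := fun j => h j / h j0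
  have hqm : ∀ j, Meromorphic (q j) := fun j => (hm j).div (hm j0)
  have hqalg : ∀ j, IsAlgebraic (BCl hB) (cl (q j) (hqm j)) := by
    intro j
    obtain ⟨Ω, hΩ, hΩa⟩ := halg j
    exact alg_of_algOver hB hΩ (hm j) (hm j0) hj0 hΩa
  have hqr : ∀ᶠ z in codiscrete ℂ, Rep (f z) fun j => q j z := by
    filter_upwards [hr, hh0] with z h1 h2
    have h3 : (fun j => q j z) = fun j => (h j0 z)⁻¹ * h j z := by
      funext j
      change h j z / h j0 z = _
      rw [div_eq_mul_inv, mul_comm]
    rw [h3]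
    exact (rep_smul (inv_ne_zero h2)).2 h1
  have hncf : ∀ p : ℙ ℂ (Fin (N + 1) → ℂ), ¬ ∀ᶠ z in codiscrete ℂ, f z = p := by
    intro p hp
    have hall : ∀ z, f z = p := by
      intro z
      refine holMap_ext (f' := fun _ => p) hf ?_ (codis_ev hp z)
      intro a
      exact ⟨fun j _ => p.rep j, fun j => analyticAt_const, Eventually.of_forall fun _ => rep_rep p⟩
    obtain ⟨z, w, hzw⟩ := hnc
    exact hzw (by rw [hall z, hall w])
  obtain ⟨j1, hj1⟩ : ∃ j1, NC (q j1) := by
    by_contra h0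
    push Not at h0
    have h1 : ∀ j, ∃ c, ∀ᶠ z in codiscrete ℂ, q j z = c := fun j => not_not.1 (h0 j)
    choose c hc using h1
    have h2 : ∀ᶠ z in codiscrete ℂ, ∀ j, q j z = c j := eventually_all.2 hc
    obtain ⟨z0, h3, h4⟩ := (h2.and hqr).exists
    apply hncf (f z0)
    filter_upwards [h2, hqr] with z h5 h6
    have h7 : (fun j => q j z) = fun j => q j z0 := funext fun j => by rw [h5, h3]
    rw [h7] at h6
    exact rep_eq h6 h4
  -- the family
  let w : Option (Fin (N + 1)) → ℂ → ℂ := fun o => o.elim (deriv (q j1)) q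
  have hw : ∀ o, Meromorphic (w o) := by
    intro o
    cases o with
    | none => exact (hqm j1).deriv
    | some j => exact hqm j
  let v : Option (Fin (N + 1)) → MK := fun o => cl (w o) (hw o)
  have hvalg : ∀ o, IsAlgebraic (BCl hB) (v o) := by
    intro o
    cases o with
    | none =>
      have h1 := alg_MD (BCl_MD hB) (hqalg j1)
      rw [MD_cl] at h1
      exact h1
    | some j => exact hqalg j
  have hPall : ∀ o, NC (w o) → ∀ i, ∃ P : Polynomial (Polynomial ℂ),
      ev2 (v o) (v i) P = 0 ∧ ev2 (v o) (v i) (Polynomial.derivative P) ≠ 0 := by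
    intro o ho i
    have ht := transc_of_nc (hw o) ho
    exact exists_P ht (alg_dep (BCl hB) (BCl_dep hB) (hvalg o) (hvalg i) ht)
  obtain ⟨s, R, hs, hsR⟩ := exists_ode v (some j1) none (MD_cl (hqm j1)).symm
    (hPall (some j1) hj1)
  have hP' : ∀ o, NC (w o) → ∀ i, ∃ P : Polynomial (Polynomial ℂ), P ≠ 0 ∧
      ∀ᶠ z in codiscrete ℂ, ev2 (w o z) (w i z) P = 0 := by
    intro o ho i
    obtain ⟨P, hP, hP'⟩ := hPall o ho i
    refine ⟨P, ?_, ?_⟩
    · rintro rfl
      rw [Polynomial.derivative_zero, map_zero] at hP'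
      exact hP' rfl
    · obtain ⟨hm2, h2⟩ := ev2_cl (hw o) (hw i) P
      have h3 : cl (fun z => ev2 (w o z) (w i z) P) hm2 = 0 := by
        rw [← h2]
        exact hP
      exact cl_eq_zero.1 h3
  have hs' : ∀ᶠ z in codiscrete ℂ, eval (fun o => w o z) s ≠ 0 := by
    have h1 := aeval_cl w hw s
    apply mero_ne (mero_eval hw s)
    intro h2
    apply hs
    have h3 : aeval v s = cl (fun z => eval (fun o => w o z) s) (mero_eval hw s) := h1
    rw [h3]
    exact cl_eq_zero.2 h2
  have hsR' : ∀ o, ∀ᶠ z in codiscrete ℂ,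
      eval (fun o => w o z) s * deriv (w o) z = eval (fun o => w o z) (R o) := by
    intro o
    have h1 := hsR o
    have h2 : aeval v s = cl (fun z => eval (fun o => w o z) s) (mero_eval hw s) :=
      aeval_cl w hw s
    have h3 : aeval v (R o) = cl (fun z => eval (fun o => w o z) (R o)) (mero_eval hw (R o)) :=
      aeval_cl w hw (R o)
    rw [h2, h3, MD_cl, cl_mul, cl_eq] at h1
    exact h1
  -- the good set
  choose P hP0 hPz using hP'
  let Ω : Set ℂ := {z | (∀ o, AnalyticAt ℂ (w o) z) ∧ eval (fun o => w o z) s ≠ 0 ∧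
    (∀ o, eval (fun o => w o z) s * deriv (w o) z = eval (fun o => w o z) (R o)) ∧
    ∀ o, ∀ ho : NC (w o), ∀ i, ev2 (w o z) (w i z) (P o ho i) = 0}
  have hΩ : Ω ∈ codiscrete ℂ := by
    have h1 : ∀ᶠ z in codiscrete ℂ, ∀ o, AnalyticAt ℂ (w o) z :=
      eventually_all.2 fun o => mero_an (hw o)
    have h2 : ∀ᶠ z in codiscrete ℂ, ∀ o,
        eval (fun o => w o z) s * deriv (w o) z = eval (fun o => w o z) (R o) :=
      eventually_all.2 hsR'
    have h3 : ∀ᶠ z in codiscrete ℂ, ∀ o, ∀ ho : NC (w o), ∀ i,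
        ev2 (w o z) (w i z) (P o ho i) = 0 := by
      refine eventually_all.2 fun o => ?_
      by_cases ho : NC (w o)
      · have h4 : ∀ᶠ z in codiscrete ℂ, ∀ i, ev2 (w o z) (w i z) (P o ho i) = 0 :=
          eventually_all.2 fun i => hPz o ho i
        filter_upwards [h4] with z hz
        intro _ i
        exact hz i
      · exact Eventually.of_forall fun z ho' => absurd ho' ho
    filter_upwards [h1, hs', h2, h3] with z k1 k2 k3 k4
    exact ⟨k1, k2, k3, k4⟩
  have hOde : Ode w s R Ω := ⟨codis_open hΩ, fun z hz => hz.1, fun z hz => hz.2.1,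
    fun z hz => hz.2.2.1⟩
  rcases classify hOde hΩ hw (fun o ho i => ⟨P o ho i, hP0 o ho i, fun z hz => hz.2.2.2 o ho i⟩)
    ⟨some j1, hj1⟩ with h1 | h1
  · -- the torus case
    obtain ⟨ω₁, ω₂, hω₁, hω₂, hind⟩ := h1
    have hper : ∀ ω ∈ Pd w, ∀ z, f (z + ω) = f z := by
      intro ω hω z
      apply holMap_ext (hf.shift ω) hf
      have h2 : ∀ᶠ z in codiscrete ℂ, ∀ j, q j (z + ω) = q j z :=
        eventually_all.2 fun j => hω (some j)
      filter_upwards [codis_ev h2 z, codis_ev hqr z, codis_ev (codis_shift ω hqr) z]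
        with y h3 h4 h5
      have h6 : (fun j => q j (y + ω)) = fun j => q j y := funext h3
      rw [h6] at h5
      exact rep_eq h5 h4
    obtain ⟨z, hz⟩ := hnper ω₁ ω₂ hind (hper ω₁ hω₁)
    exact hz (hper ω₂ hω₂ z)
  · -- the rational case
    obtain ⟨φ, hφ, hφq⟩ := h1
    have h2 := in_of_rat hR hφ (q := q) (fun j => hφq (some j)) (by
      filter_upwards [hqr] with z hz
      exact (inV_iff hz).1 (hI z)) (by
      intro h3
      obtain ⟨z0, h4, h5⟩ := (h3.and hqr).exists
      apply hncf (f z0)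
      filter_upwards [h4, hqr] with w h6 h7
      exact (rep_eq' h5 h7 h6).symm)
    apply hcon
    intro z
    apply inV_of_punct hf
    filter_upwards [codis_ev h2 z, codis_ev hqr z] with y h3 h4
    rw [inV_iff h4]
    exact h3

/-- **Tori.** -/
theorem main {I I' : Ideal (MvPolynomial (Fin (N + 1)) ℂ)} (hT : TorusMapsIn I I')
    {B : Subalgebra ℂ (ℂ → ℂ)} (hB : TrOne B) {f : ℂ → ℙ ℂ (Fin (N + 1) → ℂ)} (hf : HolMap f)
    {h : Fin (N + 1) → ℂ → ℂ} (hm : ∀ j, Meromorphic (h j)) (hl : ∀ j, LinB B (h j))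
    (hr : ∀ᶠ z in codiscrete ℂ, Rep (f z) fun j => h j z) (hI : ∀ z, InV I (f z))
    (hnc : ∃ z w, f z ≠ f w) : ∀ z, InV I' (f z) := by
  rcases dichotomy (ratCurves_of_torus hT) hB hf hm hl hr hI hnc with h1 | ⟨ω₁, ω₂, h1, h2, h3⟩
  · exact h1
  · exact hT ω₁ ω₂ h1 f hf h2 h3 hI hnc

end Pool.Agent.TH143.EL
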