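import Mathlib
import Pool.Agent.TH143.Gen

/-!
Meromorphic functions on the plane, up to discrete sets.
-/

set_option autoImplicit false

namespace Pool.Agent.TH143.EL

open Filter Topology Set

theorem codis_open {U : Set ℂ} (hU : U ∈ codiscrete ℂ) : IsOpen U := (mem_codiscrete'.1 hU).1

theorem codis_countable {U : Set ℂ} (hU : U ∈ codiscrete ℂ) : Uᶜ.Countable :=
  (HereditarilyLindelofSpace.isLindelof _).countable_of_isDiscrete (mem_codiscrete'.1 hU).2

theorem codis_connected {U : Set ℂ} (hU : U ∈ codiscrete ℂ) : IsConnected U := by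
  have h := (codis_countable hU).isConnected_compl_of_one_lt_rank (E := ℂ) (by
    rw [Complex.rank_real_complex]
    exact Nat.one_lt_ofNat)
  rwa [compl_compl] at h

theorem codis_pre {U : Set ℂ} (hU : U ∈ codiscrete ℂ) : IsPreconnected U :=
  (codis_connected hU).isPreconnected

theorem codis_ne {U : Set ℂ} (hU : U ∈ codiscrete ℂ) : U.Nonempty := (codis_connected hU).nonempty

theorem codis_punct {U : Set ℂ} (hU : U ∈ codiscrete ℂ) (x : ℂ) : U ∈ 𝓝[≠] x := by
  have h := mem_codiscrete.1 hU x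
  rwa [disjoint_principal_right, compl_compl] at h

theorem codis_of_punct {U : Set ℂ} (h : ∀ x, U ∈ 𝓝[≠] x) : U ∈ codiscrete ℂ := by
  rw [mem_codiscrete]
  intro x
  rw [disjoint_principal_right, compl_compl]
  exact h x

instance : (codiscrete ℂ).NeBot := by
  constructor
  intro h
  have h1 : (∅ : Set ℂ) ∈ codiscrete ℂ := by rw [h]; exact mem_bot
  exact (codis_ne h1).ne_empty rfl

theorem codis_ev {p : ℂ → Prop} (h : ∀ᶠ z in codiscrete ℂ, p z) (x : ℂ) : ∀ᶠ z in 𝓝[≠] x, p z :=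
  codis_punct h x

theorem codis_of_ev {p : ℂ → Prop} (h : ∀ x, ∀ᶠ z in 𝓝[≠] x, p z) : ∀ᶠ z in codiscrete ℂ, p z :=
  codis_of_punct h

theorem codis_of_ev' {p : ℂ → Prop} (h : ∀ x, ∀ᶠ z in 𝓝 x, p z) : ∀ᶠ z in codiscrete ℂ, p z :=
  codis_of_punct fun x => nhdsWithin_le_nhds (h x)

/-- on the good set everything holds in a full neighbourhood -/
theorem codis_nhds {U : Set ℂ} (hU : U ∈ codiscrete ℂ) {x : ℂ} (hx : x ∈ U) : U ∈ 𝓝 x :=
  (codis_open hU).mem_nhds hx

theorem punct_shift {p : ℂ → Prop} (a x : ℂ) (h : ∀ᶠ z in 𝓝[≠] (x + a), p z) :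
    ∀ᶠ z in 𝓝[≠] x, p (z + a) := by
  have h1 : Tendsto (fun z : ℂ => z + a) (𝓝[≠] x) (𝓝[≠] (x + a)) := by
    apply tendsto_nhdsWithin_of_tendsto_nhds_of_eventually_within
    · exact ((continuous_id.add continuous_const).tendsto x).mono_left nhdsWithin_le_nhds
    · filter_upwards [self_mem_nhdsWithin] with z hz
      intro h2
      exact hz (add_right_cancel h2)
  exact h1.eventually h

theorem codis_shift {p : ℂ → Prop} (a : ℂ) (h : ∀ᶠ z in codiscrete ℂ, p z) :
    ∀ᶠ z in codiscrete ℂ, p (z + a) :=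
  codis_of_ev fun x => punct_shift a x (codis_ev h (x + a))

theorem mero_an {f : ℂ → ℂ} (hf : Meromorphic f) : ∀ᶠ z in codiscrete ℂ, AnalyticAt ℂ f z :=
  codis_of_ev fun x => (hf x).eventually_analyticAt

theorem mero_top {f : ℂ → ℂ} (hf : Meromorphic f) {x : ℂ} (h : ∃ᶠ z in 𝓝[≠] x, f z = 0) (y : ℂ) :
    ∀ᶠ z in 𝓝[≠] y, f z = 0 := by
  have h1 := (hf x).frequently_zero_iff_eventuallyEq_zero.1 h
  have h2 : meromorphicOrderAt f x = ⊤ := meromorphicOrderAt_eq_top_iff.2 h1
  by_contra h3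
  have h4 : meromorphicOrderAt f y ≠ ⊤ := fun h5 => h3 (meromorphicOrderAt_eq_top_iff.1 h5)
  exact (MeromorphicOn.meromorphicOrderAt_ne_top_of_isPreconnected (U := univ)
    (fun z _ => hf z) isPreconnected_univ (mem_univ y) (mem_univ x) h4) h2

/-- identity theorem -/
theorem mero_id {f : ℂ → ℂ} (hf : Meromorphic f) {x : ℂ} (h : ∃ᶠ z in 𝓝[≠] x, f z = 0) :
    ∀ᶠ z in codiscrete ℂ, f z = 0 :=
  codis_of_ev (mero_top hf h)

theorem mero_ne {f : ℂ → ℂ} (hf : Meromorphic f) (h : ¬ ∀ᶠ z in codiscrete ℂ, f z = 0) :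
    ∀ᶠ z in codiscrete ℂ, f z ≠ 0 := by
  apply codis_of_ev
  intro x
  by_contra h1
  exact h (mero_id hf (by simpa using h1))

theorem mero_id2 {f g : ℂ → ℂ} (hf : Meromorphic f) (hg : Meromorphic g) {x : ℂ}
    (h : ∃ᶠ z in 𝓝[≠] x, f z = g z) : ∀ᶠ z in codiscrete ℂ, f z = g z := by
  have h1 := mero_id (hf.sub hg) (x := x) (h.mono fun z hz => by rw [Pi.sub_apply, hz, sub_self])
  filter_upwards [h1] with z hz
  exact sub_eq_zero.1 hz

/-- frequently in a punctured neighbourhood from eventually in a neighbourhood -/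
theorem freq_of_ev {p : ℂ → Prop} {x : ℂ} (h : ∀ᶠ z in 𝓝 x, p z) : ∃ᶠ z in 𝓝[≠] x, p z :=
  (h.filter_mono nhdsWithin_le_nhds).frequently

theorem mero_comp_add {f : ℂ → ℂ} (hf : Meromorphic f) (a : ℂ) :
    Meromorphic (fun z => f (z + a)) := by
  intro x
  exact (hf (x + a)).comp_analyticAt (g := fun z => z + a) (analyticAt_id.add analyticAt_const)

theorem mero_eval {σ : Type} [Fintype σ] {v : σ → ℂ → ℂ} (hv : ∀ j, Meromorphic (v j))
    (P : MvPolynomial σ ℂ) : Meromorphic (fun z => MvPolynomial.eval (fun j => v j z) P) := by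
  induction P using MvPolynomial.induction_on with
  | C a => simpa using Meromorphic.const a
  | add p q hp hq =>
    simp only [map_add]
    exact hp.add hq
  | mul_X p j hp =>
    simp only [map_mul, MvPolynomial.eval_X]
    exact hp.mul (hv j)

/-- an identity on a codiscrete set holds at all points where both sides are continuous -/
theorem eq_of_codis {f g : ℂ → ℂ} (h : ∀ᶠ z in codiscrete ℂ, f z = g z) {x : ℂ}
    (hf : ContinuousAt f x) (hg : ContinuousAt g x) : f x = g x := by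
  have h1 : f =ᶠ[𝓝[≠] x] g := codis_ev h x
  exact ((hf.eventuallyEq_nhds_iff_eventuallyEq_nhdsNE hg).1 h1).self_of_nhds

end Pool.Agent.TH143.EL
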