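import Pool.Agent.TH143.EL.Mero
import Pool.Agent.TH143.HE.Spec

/-!
Holomorphic maps from the plane to projective space.
-/

set_option autoImplicit false

namespace Pool.Agent.TH143.EL

open Filter Topology Set MvPolynomial
open scoped LinearAlgebra.Projectivization

variable {N : ℕ}

/-- The vector `v` represents the point `p` of the projective space. -/
def Rep (p : ℙ ℂ (Fin (N + 1) → ℂ)) (v : Fin (N + 1) → ℂ) : Prop :=
  ∃ h : v ≠ 0, p = Projectivization.mk ℂ v h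

/-- `f` is a holomorphic map from the plane to the projective space of dimension `N`. -/
def HolMap (f : ℂ → ℙ ℂ (Fin (N + 1) → ℂ)) : Prop :=
  ∀ a, ∃ g : Fin (N + 1) → ℂ → ℂ, (∀ j, AnalyticAt ℂ (g j) a) ∧
    ∀ᶠ z in 𝓝 a, Rep (f z) fun j => g j z

/-- The point `p` lies in the projective algebraic set defined by the homogeneous elements of
the ideal `I`. -/
def InV (I : Ideal (MvPolynomial (Fin (N + 1)) ℂ)) (p : ℙ ℂ (Fin (N + 1) → ℂ)) : Prop :=
  ∀ G ∈ I, (∃ d, G.IsHomogeneous d) → eval p.rep G = 0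

theorem rep_rep (p : ℙ ℂ (Fin (N + 1) → ℂ)) : Rep p p.rep := ⟨p.rep_nonzero, p.mk_rep.symm⟩

theorem rep_iff {p : ℙ ℂ (Fin (N + 1) → ℂ)} {v w : Fin (N + 1) → ℂ} (hv : Rep p v) :
    Rep p w ↔ w ≠ 0 ∧ ∀ j k, v j * w k = v k * w j := by
  obtain ⟨hv0, rfl⟩ := hv
  constructor
  · rintro ⟨hw, h⟩
    refine ⟨hw, fun j k => ?_⟩
    obtain ⟨a, ha⟩ := (Projectivization.mk_eq_mk_iff' ℂ v w hv0 hw).1 h
    rw [← ha]
    simp only [Pi.smul_apply, smul_eq_mul]
    ring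
  · rintro ⟨hw, h⟩
    refine ⟨hw, ?_⟩
    rw [Projectivization.mk_eq_mk_iff']
    obtain ⟨k, hk⟩ := Function.ne_iff.1 hw
    have hk' : w k ≠ 0 := hk
    refine ⟨v k / w k, ?_⟩
    funext j
    simp only [Pi.smul_apply, smul_eq_mul]
    rw [div_mul_eq_mul_div, div_eq_iff hk']
    exact (h j k).symm

theorem rep_eq {p q : ℙ ℂ (Fin (N + 1) → ℂ)} {v : Fin (N + 1) → ℂ} (hp : Rep p v) (hq : Rep q v) :
    p = q := by
  obtain ⟨h1, rfl⟩ := hp
  obtain ⟨h2, rfl⟩ := hq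
  rfl

theorem rep_eq' {p q : ℙ ℂ (Fin (N + 1) → ℂ)} {v w : Fin (N + 1) → ℂ} (hp : Rep p v)
    (hq : Rep q w) (h : ∀ j k, v j * w k = v k * w j) : p = q :=
  rep_eq ((rep_iff hp).2 ⟨hq.1, h⟩) hq

theorem rep_smul {p : ℙ ℂ (Fin (N + 1) → ℂ)} {v : Fin (N + 1) → ℂ} {c : ℂ} (hc : c ≠ 0) :
    Rep p (fun j => c * v j) ↔ Rep p v := by
  constructor
  · intro h
    refine (rep_iff h).2 ⟨?_, fun j k => by ring⟩
    intro h0
    apply h.1
    funext j
    have := congrFun h0 j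
    simp only [Pi.zero_apply] at this ⊢
    rw [this, mul_zero]
  · intro h
    refine (rep_iff h).2 ⟨?_, fun j k => by ring⟩
    intro h0
    apply h.1
    funext j
    have := congrFun h0 j
    simp only [Pi.zero_apply] at this ⊢
    exact (mul_eq_zero.1 this).resolve_left hc

theorem eval_smul_homog {n : ℕ} {G : MvPolynomial (Fin n) ℂ} {d : ℕ} (hG : G.IsHomogeneous d)
    (c : ℂ) (v : Fin n → ℂ) : eval (fun j => c * v j) G = c ^ d * eval v G := by
  have := Pool.Agent.TH143.HE.eval₂_smul_homog (RingHom.id ℂ) c v hG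
  simpa only [eval₂_id] using this

theorem inV_iff {I : Ideal (MvPolynomial (Fin (N + 1)) ℂ)} {p : ℙ ℂ (Fin (N + 1) → ℂ)}
    {v : Fin (N + 1) → ℂ} (h : Rep p v) :
    InV I p ↔ ∀ G ∈ I, (∃ d, G.IsHomogeneous d) → eval v G = 0 := by
  obtain ⟨hv, rfl⟩ := h
  obtain ⟨a, ha⟩ := Projectivization.exists_smul_eq_mk_rep ℂ v hv
  have h1 : ∀ G : MvPolynomial (Fin (N + 1)) ℂ, (∃ d, G.IsHomogeneous d) →
      (eval (Projectivization.mk ℂ v hv).rep G = 0 ↔ eval v G = 0) := by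
    rintro G ⟨d, hd⟩
    have h2 : (Projectivization.mk ℂ v hv).rep = fun j => (a : ℂ) * v j := by
      rw [← ha]
      rfl
    rw [h2, eval_smul_homog hd]
    constructor
    · intro h3
      exact (mul_eq_zero.1 h3).resolve_left (pow_ne_zero _ a.ne_zero)
    · intro h3
      rw [h3, mul_zero]
  exact ⟨fun h G hG hd => (h1 G hd).1 (h G hG hd), fun h G hG hd => (h1 G hd).2 (h G hG hd)⟩

/-- local lift of a tuple of meromorphic functions -/
theorem local_lift {h : Fin (N + 1) → ℂ → ℂ} {a : ℂ} (hh : ∀ j, MeromorphicAt (h j) a)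
    (hne : ∃ j, ¬ ∀ᶠ z in 𝓝[≠] a, h j z = 0) :
    ∃ g : Fin (N + 1) → ℂ → ℂ, (∀ j, AnalyticAt ℂ (g j) a) ∧ (fun j => g j a) ≠ 0 ∧
      ∀ᶠ z in 𝓝[≠] a, ∃ c : ℂ, c ≠ 0 ∧ ∀ j, g j z = c * h j z := by
  classical
  obtain ⟨j1, hj1⟩ := hne
  obtain ⟨j0, -, hj0⟩ := Finset.exists_min_image Finset.univ
    (fun j => meromorphicOrderAt (h j) a) ⟨j1, Finset.mem_univ _⟩
  have hj1' : meromorphicOrderAt (h j1) a ≠ ⊤ := fun h0 =>
    hj1 (meromorphicOrderAt_eq_top_iff.1 h0)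
  have hj0' : meromorphicOrderAt (h j0) a ≠ ⊤ := fun h0 => hj1' (by
    have := hj0 j1 (Finset.mem_univ _)
    rw [h0] at this
    exact top_le_iff.1 this)
  obtain ⟨m, hm⟩ := WithTop.ne_top_iff_exists.1 hj0'
  let G : Fin (N + 1) → ℂ → ℂ := fun j => (fun z => (z - a) ^ (-m)) * h j
  have hzm : MeromorphicAt (fun z : ℂ => (z - a) ^ (-m)) a :=
    (MeromorphicAt.id a |>.sub (MeromorphicAt.const a a)).zpow (-m)
  have hGm : ∀ j, MeromorphicAt (G j) a := fun j => hzm.mul (hh j)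
  have hord : ∀ j, meromorphicOrderAt (G j) a = ((-m : ℤ) : WithTop ℤ) +
      meromorphicOrderAt (h j) a := by
    intro j
    rw [meromorphicOrderAt_mul hzm (hh j)]
    congr 1
    exact meromorphicOrderAt_zpow_id_sub_const
  refine ⟨fun j => toMeromorphicNFAt (G j) a, fun j => ?_, ?_, ?_⟩
  · rw [← (hGm j).meromorphicOrderAt_nonneg_iff_analyticAt_toMeromorphicNFAt, hord j]
    have h1 := hj0 j (Finset.mem_univ _)
    rw [← hm] at h1
    cases h2 : meromorphicOrderAt (h j) a with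
    | top => exact le_top
    | coe n =>
      rw [h2] at h1
      have h3 : m ≤ n := WithTop.coe_le_coe.1 h1
      rw [← WithTop.coe_add]
      exact_mod_cast (by omega : (0 : ℤ) ≤ -m + n)
  · intro h0
    have h1 := congrFun h0 j0
    revert h1
    apply ((hGm j0).meromorphicOrderAt_eq_zero_iff_toMeromorphicNFAt_ne_zero).1
    rw [hord j0, ← hm, ← WithTop.coe_add]
    simp
  · have h1 : ∀ᶠ z in 𝓝[≠] a, ∀ j, G j z = toMeromorphicNFAt (G j) a z :=
      eventually_all.2 fun j => (hGm j).eq_nhdsNE_toMeromorphicNFAt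
    filter_upwards [h1, self_mem_nhdsWithin] with z hz hza
    refine ⟨(z - a) ^ (-m), zpow_ne_zero _ (sub_ne_zero.2 hza), fun j => ?_⟩
    rw [← hz j]
    rfl

/-- two analytic lifts are proportional if they are so in a punctured neighbourhood -/
theorem cross_of_punct {g h : Fin (N + 1) → ℂ → ℂ} {a : ℂ} (hg : ∀ j, ContinuousAt (g j) a)
    (hh : ∀ j, ContinuousAt (h j) a)
    (he : ∀ᶠ z in 𝓝[≠] a, ∀ j k, g j z * h k z = g k z * h j z) (j k : Fin (N + 1)) :
    g j a * h k a = g k a * h j a := by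
  have h1 : (fun z => g j z * h k z) =ᶠ[𝓝[≠] a] fun z => g k z * h j z :=
    he.mono fun z hz => hz j k
  exact ((((hg j).mul (hh k)).eventuallyEq_nhds_iff_eventuallyEq_nhdsNE
    ((hg k).mul (hh j))).1 h1).self_of_nhds

theorem holMap_ext {f f' : ℂ → ℙ ℂ (Fin (N + 1) → ℂ)} (hf : HolMap f) (hf' : HolMap f')
    {a : ℂ} (h : ∀ᶠ z in 𝓝[≠] a, f z = f' z) : f a = f' a := by
  obtain ⟨g, hg, hgr⟩ := hf a
  obtain ⟨g', hg', hgr'⟩ := hf' a
  refine rep_eq' hgr.self_of_nhds hgr'.self_of_nhds ?_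
  apply cross_of_punct (fun j => (hg j).continuousAt) (fun j => (hg' j).continuousAt)
  filter_upwards [h, hgr.filter_mono nhdsWithin_le_nhds, hgr'.filter_mono nhdsWithin_le_nhds]
    with z h1 h2 h3
  rw [← h1] at h3
  exact ((rep_iff h2).1 h3).2

theorem inV_of_punct {I : Ideal (MvPolynomial (Fin (N + 1)) ℂ)} {f : ℂ → ℙ ℂ (Fin (N + 1) → ℂ)}
    (hf : HolMap f) {a : ℂ} (h : ∀ᶠ z in 𝓝[≠] a, InV I (f z)) : InV I (f a) := by
  obtain ⟨g, hg, hgr⟩ := hf a
  rw [inV_iff hgr.self_of_nhds]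
  intro G hG hGd
  have h1 : ContinuousAt (fun z => eval (fun j => g j z) G) a := by
    have h2 : ∀ P : MvPolynomial (Fin (N + 1)) ℂ,
        ContinuousAt (fun z => eval (fun j => g j z) P) a := by
      intro P
      induction P using MvPolynomial.induction_on with
      | C a => simpa using continuousAt_const
      | add p q hp hq => simp only [map_add]; exact hp.add hq
      | mul_X p j hp => simp only [map_mul, eval_X]; exact hp.mul (hg j).continuousAt
    exact h2 G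
  have h2 : (fun z => eval (fun j => g j z) G) =ᶠ[𝓝[≠] a] fun _ => 0 := by
    filter_upwards [h, hgr.filter_mono nhdsWithin_le_nhds] with z hz hz'
    exact (inV_iff hz').1 hz G hG hGd
  exact ((h1.eventuallyEq_nhds_iff_eventuallyEq_nhdsNE continuousAt_const).1 h2).self_of_nhds

theorem HolMap.shift {f : ℂ → ℙ ℂ (Fin (N + 1) → ℂ)} (hf : HolMap f) (c : ℂ) :
    HolMap fun z => f (z + c) := by
  intro a
  obtain ⟨g, hg, hgr⟩ := hf (a + c)
  refine ⟨fun j z => g j (z + c), fun j => ?_, ?_⟩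
  · exact (hg j).fun_comp (f := fun z => z + c) (analyticAt_id.add analyticAt_const)
  · have h1 : Tendsto (fun z : ℂ => z + c) (𝓝 a) (𝓝 (a + c)) :=
      (continuous_id.add continuous_const).tendsto a
    exact h1.eventually hgr

/-- A tuple of meromorphic functions defines a holomorphic map. -/
theorem exists_holMap {h : Fin (N + 1) → ℂ → ℂ} (hh : ∀ j, Meromorphic (h j))
    (hne : ∃ j, ¬ ∀ᶠ z in codiscrete ℂ, h j z = 0) :
    ∃ f : ℂ → ℙ ℂ (Fin (N + 1) → ℂ), HolMap f ∧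
      ∀ z, (∀ j, AnalyticAt ℂ (h j) z) → (fun j => h j z) ≠ 0 → Rep (f z) fun j => h j z := by
  classical
  have hne' : ∀ a, ∃ j, ¬ ∀ᶠ z in 𝓝[≠] a, h j z = 0 := by
    intro a
    obtain ⟨j, hj⟩ := hne
    exact ⟨j, fun h0 => hj (mero_id (hh j) h0.frequently)⟩
  choose g hg hg0 hgh using fun a => local_lift (fun j => hh j a) (hne' a)
  have hcross : ∀ a, ∀ᶠ z in 𝓝 a, Rep (Projectivization.mk ℂ (fun j => g z j z) (hg0 z))
      (fun j => g a j z) := by
    intro a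
    have h1 : ∀ᶠ z in 𝓝 a, (fun j => g a j z) ≠ 0 := by
      obtain ⟨j, hj⟩ := Function.ne_iff.1 (hg0 a)
      filter_upwards [(hg a j).continuousAt.eventually_ne hj] with z hz h0
      exact hz (congrFun h0 j)
    have h2 : ∀ᶠ z in 𝓝 a, ∀ j, AnalyticAt ℂ (g a j) z :=
      eventually_all.2 fun j => (hg a j).eventually_analyticAt
    have h3 : ∀ᶠ z in 𝓝[≠] a, ∀ᶠ w in 𝓝[≠] z, ∃ c : ℂ, c ≠ 0 ∧ ∀ j, g a j w = c * h j w := by
      have h4 := eventually_eventually_nhdsWithin.2 (hgh a)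
      have h5 : ∀ᶠ z in 𝓝[≠] a, ∀ᶠ w in 𝓝 z, ∃ c : ℂ, c ≠ 0 ∧ ∀ j, g a j w = c * h j w := by
        have h6 := eventually_nhdsWithin_iff.1 (hgh a)
        have h7 := eventually_eventually_nhds.2 h6
        filter_upwards [h7.filter_mono nhdsWithin_le_nhds, self_mem_nhdsWithin] with z hz hza
        have h8 : ∀ᶠ w in 𝓝 z, w ≠ a := isOpen_ne.mem_nhds hza
        filter_upwards [hz, h8] with w hw hwa
        exact hw hwa
      exact h5.mono fun z hz => hz.filter_mono nhdsWithin_le_nhds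
    rw [eventually_nhdsWithin_iff] at h3
    filter_upwards [h1, h2, h3] with z hz1 hz2 hz3
    by_cases hza : z = a
    · subst hza
      exact ⟨hz1, rfl⟩
    · refine (rep_iff ⟨hg0 z, rfl⟩).2 ⟨hz1, ?_⟩
      apply cross_of_punct (fun j => (hg z j).continuousAt) (fun j => (hz2 j).continuousAt)
      filter_upwards [hz3 hza, hgh z] with w hw1 hw2
      obtain ⟨c, -, hc⟩ := hw1
      obtain ⟨c', -, hc'⟩ := hw2
      intro j k
      rw [hc, hc, hc', hc']
      ring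
  refine ⟨fun z => Projectivization.mk ℂ (fun j => g z j z) (hg0 z), fun a =>
    ⟨g a, hg a, hcross a⟩, fun z hz hz0 => ?_⟩
  refine (rep_iff ⟨hg0 z, rfl⟩).2 ⟨hz0, ?_⟩
  apply cross_of_punct (fun j => (hg z j).continuousAt) (fun j => (hz j).continuousAt)
  filter_upwards [hgh z] with w hw
  obtain ⟨c, -, hc⟩ := hw
  intro j k
  rw [hc, hc]
  ring

theorem codis_ne_zero {h : Fin (N + 1) → ℂ → ℂ} (hh : ∀ j, Meromorphic (h j))
    (hne : ∃ j, ¬ ∀ᶠ z in codiscrete ℂ, h j z = 0) :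
    ∀ᶠ z in codiscrete ℂ, (fun j => h j z) ≠ 0 := by
  obtain ⟨j, hj⟩ := hne
  filter_upwards [mero_ne (hh j) hj] with z hz h0
  exact hz (congrFun h0 j)

theorem codis_rep {h : Fin (N + 1) → ℂ → ℂ} (hh : ∀ j, Meromorphic (h j))
    (hne : ∃ j, ¬ ∀ᶠ z in codiscrete ℂ, h j z = 0) :
    ∃ f : ℂ → ℙ ℂ (Fin (N + 1) → ℂ), HolMap f ∧
      ∀ᶠ z in codiscrete ℂ, Rep (f z) fun j => h j z := by
  obtain ⟨f, hf, hr⟩ := exists_holMap hh hne
  refine ⟨f, hf, ?_⟩
  have h1 : ∀ᶠ z in codiscrete ℂ, ∀ j, AnalyticAt ℂ (h j) z :=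
    eventually_all.2 fun j => mero_an (hh j)
  filter_upwards [h1, codis_ne_zero hh hne] with z hz1 hz2
  exact hr z hz1 hz2

end Pool.Agent.TH143.EL
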