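import Pool.Agent.TH143.EL.Mero
import Pool.Agent.TH143.Fin

/-!
Meromorphic functions with finite fibres are rational.
-/

set_option autoImplicit false

namespace Pool.Agent.TH143.EL

open Filter Topology Set

theorem baire_gap {q : ℂ → ℂ} {V : ℕ → Set ℂ} (hVo : ∀ n, IsOpen (V n))
    (han : ∀ n, ∀ z ∈ V n, AnalyticAt ℂ q z) (hnc : ∀ n, ∀ z ∈ V n, ¬ ∀ᶠ y in 𝓝 z, q y = q z)
    {E : Set ℂ} (hE : E.Finite) (hfib : ∀ c ∉ E, ∃ n, ∀ z ∈ V n, q z ≠ c) :
    ∃ (n : ℕ) (c : ℂ) (ε : ℝ), 0 < ε ∧ ∀ z ∈ V n, ε ≤ ‖q z - c‖ := by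
  by_contra hcon
  push Not at hcon
  have hopen : ∀ n, IsOpen (q '' V n) := by
    intro n
    rw [isOpen_iff_mem_nhds]
    rintro _ ⟨z, hz, rfl⟩
    rcases (han n z hz).eventually_constant_or_nhds_le_map_nhds with h | h
    · exact absurd h (hnc n z hz)
    · exact h (image_mem_map ((hVo n).mem_nhds hz))
  have hdense : ∀ n, Dense (q '' V n) := by
    intro n
    rw [Metric.dense_iff]
    intro c r hr
    obtain ⟨z, hz, hzc⟩ := hcon n c r hr
    exact ⟨q z, by rwa [Metric.mem_ball, dist_eq_norm], z, hz, rfl⟩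
  have h1 : Dense (⋂ n, q '' V n \ E) := by
    apply dense_iInter_of_isOpen
    · intro n
      exact (hopen n).sdiff hE.isClosed
    · intro n
      exact (hdense n).sdiff_finite hE
  obtain ⟨c, hc⟩ := h1.nonempty
  rw [mem_iInter] at hc
  obtain ⟨n, hn⟩ := hfib c (hc 0).2
  obtain ⟨z, hz, hzc⟩ := (hc n).1
  exact hn z hz hzc

/-- bounded meromorphic functions are analytic after normalisation -/
theorem nf_bounded {g : ℂ → ℂ} (hg : Meromorphic g) {z : ℂ} {C : ℝ}
    (h : ∀ᶠ y in 𝓝[≠] z, ‖g y‖ ≤ C) :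
    AnalyticAt ℂ (toMeromorphicNFOn g univ) z ∧ ‖toMeromorphicNFOn g univ z‖ ≤ C := by
  have hm : MeromorphicOn g univ := fun z _ => hg z
  have h1 : g =ᶠ[𝓝[≠] z] toMeromorphicNFOn g univ :=
    (hm.toMeromorphicNFOn_eq_self_on_nhdsNE (mem_univ z)).symm
  have h2 : ∀ᶠ y in 𝓝[≠] z, ‖toMeromorphicNFOn g univ y‖ ≤ C := by
    filter_upwards [h, h1] with y h3 h4
    rwa [← h4]
  have h3 : MeromorphicNFAt (toMeromorphicNFOn g univ) z :=
    meromorphicNFOn_toMeromorphicNFOn g univ (mem_univ z)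
  have h4 : AnalyticAt ℂ (toMeromorphicNFOn g univ) z := by
    rw [← h3.meromorphicOrderAt_nonneg_iff_analyticAt]
    by_contra hcon
    push Not at hcon
    have h5 := tendsto_cobounded_of_meromorphicOrderAt_neg hcon
    have h6 := (tendsto_norm_cobounded_atTop (E := ℂ)).comp h5
    have h7 := h6.eventually_gt_atTop C
    obtain ⟨y, hy1, hy2⟩ := (h2.and h7).exists
    exact absurd hy1 (not_le.2 hy2)
  refine ⟨h4, ?_⟩
  have h5 : Tendsto (fun y => ‖toMeromorphicNFOn g univ y‖) (𝓝[≠] z)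
      (𝓝 ‖toMeromorphicNFOn g univ z‖) :=
    (h4.continuousAt.norm.tendsto).mono_left nhdsWithin_le_nhds
  exact le_of_tendsto h5 h2

theorem nf_codis {g : ℂ → ℂ} (hg : Meromorphic g) :
    ∀ᶠ z in codiscrete ℂ, g z = toMeromorphicNFOn g univ z :=
  codis_of_ev fun z => (MeromorphicOn.toMeromorphicNFOn_eq_self_on_nhdsNE (fun z _ => hg z)
    (mem_univ z)).symm

theorem nf_mero {g : ℂ → ℂ} : Meromorphic (toMeromorphicNFOn g univ) := fun z =>
  (meromorphicNFOn_toMeromorphicNFOn g univ (mem_univ z)).meromorphicAt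

theorem poly_bound (P : Polynomial ℂ) :
    ∃ C1 : ℝ, 0 ≤ C1 ∧ ∀ z : ℂ, ‖P.eval z‖ ≤ C1 * (1 + ‖z‖) ^ P.natDegree := by
  refine ⟨∑ i ∈ Finset.range (P.natDegree + 1), ‖P.coeff i‖,
    Finset.sum_nonneg fun i _ => norm_nonneg _, fun z => ?_⟩
  rw [Polynomial.eval_eq_sum_range, Finset.sum_mul]
  refine (norm_sum_le _ _).trans (Finset.sum_le_sum fun i hi => ?_)
  rw [norm_mul, norm_pow]
  refine mul_le_mul_of_nonneg_left ?_ (norm_nonneg _)
  have h1 : ‖z‖ ^ i ≤ (1 + ‖z‖) ^ i := by gcongr; linarith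
  refine h1.trans (pow_le_pow_right₀ (by linarith [norm_nonneg z]) ?_)
  exact Nat.lt_succ_iff.1 (Finset.mem_range.1 hi)

/-- a meromorphic function bounded near infinity is rational -/
theorem rat_of_bounded {g : ℂ → ℂ} (hg : Meromorphic g) {r C : ℝ}
    (hb : ∀ z, r < ‖z‖ → AnalyticAt ℂ g z ∧ ‖g z‖ ≤ C) :
    ∃ A B : Polynomial ℂ, B ≠ 0 ∧ ∀ z, B.eval z * g z = A.eval z := by
  classical
  have hS : {z | AnalyticAt ℂ g z} ∈ codiscrete ℂ := mero_an hg
  have hSc : IsClosed {z | AnalyticAt ℂ g z}ᶜ := (codis_open hS).isClosed_compl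
  have hSsub : {z | AnalyticAt ℂ g z}ᶜ ⊆ Metric.closedBall 0 r := by
    intro z hz
    rw [mem_closedBall_zero_iff]
    by_contra hcon
    exact hz (hb z (not_le.1 hcon)).1
  have hScpt : IsCompact {z | AnalyticAt ℂ g z}ᶜ :=
    (isCompact_closedBall (0 : ℂ) r).of_isClosed_subset hSc hSsub
  have hSfin : {z | AnalyticAt ℂ g z}ᶜ.Finite := hScpt.finite (mem_codiscrete'.1 hS).2
  choose k hk using fun z => hg z
  let B : Polynomial ℂ := ∏ p ∈ hSfin.toFinset, (Polynomial.X - Polynomial.C p) ^ k p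
  have hB0 : B ≠ 0 := Finset.prod_ne_zero_iff.2 fun p _ =>
    pow_ne_zero _ (Polynomial.X_sub_C_ne_zero p)
  have hhan : ∀ z, AnalyticAt ℂ (fun z => B.eval z * g z) z := by
    intro z
    by_cases hz : AnalyticAt ℂ g z
    · exact (B.differentiable.analyticAt z).fun_mul hz
    · have hmem : z ∈ hSfin.toFinset := hSfin.mem_toFinset.2 hz
      let B' : Polynomial ℂ := ∏ p ∈ hSfin.toFinset.erase z, (Polynomial.X - Polynomial.C p) ^ k p
      have h1 : (fun y => B.eval y * g y) = fun y => B'.eval y * ((y - z) ^ k z • g y) := by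
        funext y
        have h2 : B = (Polynomial.X - Polynomial.C z) ^ k z * B' :=
          (Finset.mul_prod_erase _ _ hmem).symm
        rw [h2, Polynomial.eval_mul, Polynomial.eval_pow, Polynomial.eval_sub, Polynomial.eval_X,
          Polynomial.eval_C, smul_eq_mul]
        ring
      rw [h1]
      exact (B'.differentiable.analyticAt z).fun_mul (hk z)
  have hd : Differentiable ℂ (fun z => B.eval z * g z) := fun z => (hhan z).differentiableAt
  obtain ⟨C1, hC1, hPb⟩ := poly_bound B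
  obtain ⟨C2, hC2⟩ := (isCompact_closedBall (0 : ℂ) r).exists_bound_of_continuousOn
    hd.continuous.continuousOn
  obtain ⟨A, hA⟩ := Pool.Agent.TH143.poly_of_growth _ hd (|C2| + C1 * |C|) B.natDegree (by
    intro z
    have h1 : 1 ≤ (1 + ‖z‖) ^ B.natDegree := one_le_pow₀ (by linarith [norm_nonneg z])
    by_cases h : ‖z‖ ≤ r
    · calc ‖B.eval z * g z‖ ≤ |C2| := (hC2 z (by rwa [mem_closedBall_zero_iff])).trans
            (le_abs_self _)
        _ ≤ |C2| + C1 * |C| := by linarith [mul_nonneg hC1 (abs_nonneg C)]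
        _ ≤ _ := le_mul_of_one_le_right (by positivity) h1
    · have h2 := (hb z (not_le.1 h)).2
      rw [norm_mul]
      calc ‖B.eval z‖ * ‖g z‖ ≤ (C1 * (1 + ‖z‖) ^ B.natDegree) * |C| :=
            mul_le_mul (hPb z) (h2.trans (le_abs_self C)) (norm_nonneg _) (by positivity)
        _ = (C1 * |C|) * (1 + ‖z‖) ^ B.natDegree := by ring
        _ ≤ (|C2| + C1 * |C|) * (1 + ‖z‖) ^ B.natDegree := by
            gcongr
            linarith [abs_nonneg C2])
  exact ⟨A, B, hB0, hA⟩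

/-- a meromorphic function omitting a disc near infinity is rational -/
theorem rat_of_gap {q : ℂ → ℂ} (hq : Meromorphic q) {r ε : ℝ} {c : ℂ} (hε : 0 < ε)
    (h : ∀ᶠ z in codiscrete ℂ, r < ‖z‖ → ε ≤ ‖q z - c‖) :
    ∃ A B : Polynomial ℂ, B ≠ 0 ∧ ∀ᶠ z in codiscrete ℂ, B.eval z * q z = A.eval z := by
  classical
  let g0 : ℂ → ℂ := fun z => (q z - c)⁻¹
  have hg0 : Meromorphic g0 := (hq.sub (Meromorphic.const c)).inv
  have hb : ∀ z, r < ‖z‖ → AnalyticAt ℂ (toMeromorphicNFOn g0 univ) z ∧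
      ‖toMeromorphicNFOn g0 univ z‖ ≤ ε⁻¹ := by
    intro z hz
    apply nf_bounded hg0
    have h1 : ∀ᶠ y in 𝓝[≠] z, r < ‖y‖ :=
      nhdsWithin_le_nhds ((isOpen_lt continuous_const continuous_norm).mem_nhds hz)
    filter_upwards [codis_ev h z, h1] with y h2 h3
    have h4 := h2 h3
    change ‖(q y - c)⁻¹‖ ≤ ε⁻¹
    rw [norm_inv]
    exact inv_anti₀ hε h4
  obtain ⟨A, B, hB, hAB⟩ := rat_of_bounded nf_mero hb
  have hz0 : ∀ᶠ z in codiscrete ℂ, B.eval z ≠ 0 := by
    apply codis_of_ev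
    intro x
    have h1 : AnalyticAt ℂ (fun z => B.eval z) x := B.differentiable.analyticAt x
    rcases h1.eventually_eq_zero_or_eventually_ne_zero with h2 | h2
    · exfalso
      apply hB
      apply Polynomial.eq_zero_of_infinite_isRoot
      have h3 : {z : ℂ | B.eval z = 0} ∈ 𝓝 x := h2
      exact infinite_of_mem_nhds x h3
    · exact h2
  by_cases hA : A = 0
  · -- `q` is equal to `c`
    refine ⟨Polynomial.C c, 1, one_ne_zero, ?_⟩
    filter_upwards [nf_codis hg0, hz0] with z h1 h2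
    have h3 := hAB z
    rw [← h1, hA, Polynomial.eval_zero] at h3
    have h4 := (mul_eq_zero.1 h3).resolve_left h2
    have h5 : q z - c = 0 := inv_eq_zero.1 h4
    rw [Polynomial.eval_one, one_mul, Polynomial.eval_C]
    exact sub_eq_zero.1 h5
  · refine ⟨B + Polynomial.C c * A, A, hA, ?_⟩
    have hA0 : ∀ᶠ z in codiscrete ℂ, A.eval z ≠ 0 := by
      apply codis_of_ev
      intro x
      have h1 : AnalyticAt ℂ (fun z => A.eval z) x := A.differentiable.analyticAt x
      rcases h1.eventually_eq_zero_or_eventually_ne_zero with h2 | h2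
      · exfalso
        apply hA
        apply Polynomial.eq_zero_of_infinite_isRoot
        have h3 : {z : ℂ | A.eval z = 0} ∈ 𝓝 x := h2
        exact infinite_of_mem_nhds x h3
      · exact h2
    filter_upwards [nf_codis hg0, hz0, hA0] with z h1 h2 h3
    have h4 := hAB z
    rw [← h1] at h4
    have h5 : q z - c ≠ 0 := by
      intro h6
      change B.eval z * (q z - c)⁻¹ = A.eval z at h4
      rw [h6, inv_zero, mul_zero] at h4
      exact h3 h4.symm
    change B.eval z * (q z - c)⁻¹ = A.eval z at h4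
    rw [Polynomial.eval_add, Polynomial.eval_mul, Polynomial.eval_C, ← h4]
    field_simp
    ring

end Pool.Agent.TH143.EL
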