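import Pool.Agent.TH143.EL.Proj
import Pool.Agent.TH143.EL.Cls
import Pool.Agent.TH143.HE.PCur

/-!
Rational curves are images of one-dimensional complex tori.
-/

set_option autoImplicit false

namespace Pool.Agent.TH143.EL

open Filter Topology Set MvPolynomial
open scoped LinearAlgebra.Projectivization
open Pool.Agent.TH143.HE (RatCurvesIn IsPtP NonConst)

variable {N : ℕ}

/-- Every nonconstant holomorphic map from a one-dimensional complex torus to the projective
algebraic set of `I` has its image in the projective algebraic set of `I'`. -/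
def TorusMapsIn (I I' : Ideal (MvPolynomial (Fin (N + 1)) ℂ)) : Prop :=
  ∀ ω₁ ω₂ : ℂ, LinearIndependent ℝ ![ω₁, ω₂] → ∀ f : ℂ → ℙ ℂ (Fin (N + 1) → ℂ), HolMap f →
    (∀ z, f (z + ω₁) = f z) → (∀ z, f (z + ω₂) = f z) → (∀ z, InV I (f z)) →
    (∃ z w, f z ≠ f w) → ∀ z, InV I' (f z)

/-- a nonconstant meromorphic function satisfies no polynomial equation -/
theorem nc_poly {q : ℂ → ℂ} (hq : Meromorphic q) (hnc : NC q) {Q : Polynomial ℂ}
    (h : ∀ᶠ z in codiscrete ℂ, Q.eval (q z) = 0) : Q = 0 := by
  obtain ⟨z0, hz0, hz0'⟩ := ((mero_an hq).and h).exists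
  have h1 : ∀ᶠ z in 𝓝 z0, Q.eval (q z) = 0 := codis_nhds h hz0'
  rcases hz0.eventually_constant_or_nhds_le_map_nhds with h2 | h2
  · exact absurd h2 (hnc.local hq z0)
  · apply Polynomial.eq_zero_of_infinite_isRoot
    have h3 : {t : ℂ | Q.eval t = 0} ∈ 𝓝 (q z0) := h2 h1
    exact infinite_of_mem_nhds (q z0) h3

theorem nc_wp (L : PeriodPair) : NC L.weierstrassP := by
  rintro ⟨c, hc⟩
  have h1 : L.weierstrassP =ᶠ[𝓝[≠] 0] fun _ => c := codis_ev hc 0
  have h2 := L.order_weierstrassP 0 (zero_mem _)
  rw [meromorphicOrderAt_congr h1] at h2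
  have h3 : (0 : WithTop ℤ) ≤ meromorphicOrderAt (fun _ : ℂ => c) 0 :=
    analyticAt_const.meromorphicOrderAt_nonneg
  rw [h2] at h3
  exact absurd h3 (by decide)

theorem mero_poly {q : ℂ → ℂ} (hq : Meromorphic q) (p : Polynomial ℂ) :
    Meromorphic (fun z => p.eval (q z)) := by
  intro z
  induction p using Polynomial.induction_on' with
  | add p q hp hq =>
    simp only [Polynomial.eval_add]
    exact hp.add hq
  | monomial n a =>
    simp only [Polynomial.eval_monomial]
    exact (MeromorphicAt.const a z).mul ((hq z).pow n)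

theorem eval_comp_poly {n : ℕ} (p : Fin n → Polynomial ℂ) (G : MvPolynomial (Fin n) ℂ) (t : ℂ) :
    (aeval p G : Polynomial ℂ).eval t = eval (fun j => (p j).eval t) G := by
  have h := MvPolynomial.comp_aeval_apply (f := p) (Polynomial.aeval t) G
  rw [Polynomial.coe_aeval_eq_eval] at h
  rw [h, MvPolynomial.aeval_eq_eval]

/-- two polynomial tuples which are proportional at all pairs of values of a nonconstant function
are proportional at all pairs -/
theorem prop_of_codis {q : ℂ → ℂ} (hq : Meromorphic q) (hnc : NC q) {p : Fin (N + 1) → Polynomial ℂ}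
    (h : ∀ᶠ z in codiscrete ℂ, ∀ᶠ w in codiscrete ℂ, ∀ j k,
      (p j).eval (q z) * (p k).eval (q w) = (p k).eval (q z) * (p j).eval (q w)) (u v : ℂ)
    (j k : Fin (N + 1)) : (p j).eval u * (p k).eval v = (p k).eval u * (p j).eval v := by
  have h1 : ∀ᶠ z in codiscrete ℂ, (Polynomial.C ((p j).eval (q z)) * p k -
      Polynomial.C ((p k).eval (q z)) * p j) = 0 := by
    filter_upwards [h] with z hz
    apply nc_poly hq hnc
    filter_upwards [hz] with w hw
    simp only [Polynomial.eval_sub, Polynomial.eval_mul, Polynomial.eval_C]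
    exact sub_eq_zero.2 (hw j k)
  have h2 : (Polynomial.C ((p k).eval v) * p j - Polynomial.C ((p j).eval v) * p k) = 0 := by
    apply nc_poly hq hnc
    filter_upwards [h1] with z hz
    have h3 := congrArg (Polynomial.eval v) hz
    simp only [Polynomial.eval_sub, Polynomial.eval_mul, Polynomial.eval_C,
      Polynomial.eval_zero] at h3 ⊢
    linear_combination h3
  have h3 := congrArg (Polynomial.eval u) h2
  simp only [Polynomial.eval_sub, Polynomial.eval_mul, Polynomial.eval_C,
    Polynomial.eval_zero] at h3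
  linear_combination h3

theorem ratCurves_of_torus {I I' : Ideal (MvPolynomial (Fin (N + 1)) ℂ)}
    (hT : TorusMapsIn I I') : RatCurvesIn (RingHom.id ℂ) I I' := by
  classical
  intro p hp hnc u G' hG' hGh
  obtain ⟨j0, k0, u1, v1, hne⟩ := hnc
  have hind : LinearIndependent ℝ ![(1 : ℂ), Complex.I] := by
    rw [LinearIndependent.pair_iff]
    intro s t h
    have h1 := congrArg Complex.re h
    have h2 := congrArg Complex.im h
    simp at h1 h2
    exact ⟨h1, h2⟩
  let L : PeriodPair := ⟨1, Complex.I, hind⟩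
  let h : Fin (N + 1) → ℂ → ℂ := fun j z => (p j).eval (L.weierstrassP z)
  have hh : ∀ j, Meromorphic (h j) := fun j => mero_poly L.meromorphic_weierstrassP (p j)
  have hne0 : ∃ j, ¬ ∀ᶠ z in codiscrete ℂ, h j z = 0 := by
    by_contra hcon
    push Not at hcon
    have h1 : ∀ j, p j = 0 := fun j => nc_poly L.meromorphic_weierstrassP (nc_wp L) (hcon j)
    rw [h1 j0, h1 k0] at hne
    simp at hne
  obtain ⟨f, hf, hfr⟩ := codis_rep hh hne0
  have hper : ∀ l : L.lattice, ∀ z, f (z + l) = f z := by
    intro l z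
    apply holMap_ext (hf.shift (l : ℂ)) hf
    filter_upwards [codis_ev (codis_shift (l : ℂ) hfr) z, codis_ev hfr z] with y h1 h2
    have h3 : (fun j => h j (y + l)) = fun j => h j y := by
      funext j
      change (p j).eval (L.weierstrassP (y + l)) = (p j).eval (L.weierstrassP y)
      rw [L.weierstrassP_add_coe]
    rw [h3] at h1
    exact rep_eq h1 h2
  have hev : ∀ (J : Ideal (MvPolynomial (Fin (N + 1)) ℂ)) (v : Fin (N + 1) → ℂ),
      IsPtP (RingHom.id ℂ) J v ↔ ∀ G ∈ J, (∃ d, G.IsHomogeneous d) → eval v G = 0 := by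
    intro J v
    unfold IsPtP
    simp only [eval₂_id]
  have hI : ∀ z, InV I (f z) := by
    intro z
    apply inV_of_punct hf
    filter_upwards [codis_ev hfr z] with y hy
    rw [inV_iff hy]
    exact (hev I _).1 (hp (L.weierstrassP y))
  have hncf : ∃ z w, f z ≠ f w := by
    by_contra hcon
    push Not at hcon
    apply hne
    apply prop_of_codis L.meromorphic_weierstrassP (nc_wp L)
    filter_upwards [hfr] with z hz
    filter_upwards [hfr] with w hw
    intro j k
    rw [hcon w z] at hw
    exact ((rep_iff hz).1 hw).2 j k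
  have hI' := hT 1 Complex.I hind f hf (hper ⟨1, L.ω₁_mem_lattice⟩)
    (hper ⟨Complex.I, L.ω₂_mem_lattice⟩) hI hncf
  have h1 : (aeval p G' : Polynomial ℂ) = 0 := by
    apply nc_poly L.meromorphic_weierstrassP (nc_wp L)
    filter_upwards [hfr] with z hz
    rw [eval_comp_poly]
    exact (inV_iff hz).1 (hI' z) G' hG' hGh
  rw [eval₂_id, ← eval_comp_poly, h1, Polynomial.eval_zero]

end Pool.Agent.TH143.EL
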